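import Pool.Agent.Lib.MP_79bff1_ag_K.KData
import Pool.Agent.Lib.MP_79bff1_ag_K.KTrees

/-!
# MP_79bff1_ag: the checker of the finite verification
-/

set_option autoImplicit false

namespace Pool.Agent.BSub.KK

/-- the positions of the comparisons of labels of types `a`, `b` -/
def msk (a b : ℕ) : ℕ := dig MSK 9 (7 * a + b)

/-- the number of the flag with root type `a`, other type `b`, code `c` -/
def ixf (a b c : ℕ) : ℕ := dig IXT 6 ((7 * a + b) * 512 + c)

/-- entry of the square root of the quadratic form of the root type `a` -/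
def Lv (a j f : ℕ) : ℤ := (dig LTB 16 ((8 * a + j) * 64 + f) : ℤ) - 32768

/-- linear term -/
def cv (i a f : ℕ) : ℤ := (dig CTB 24 ((64 * a + f) * 3 + i) : ℤ) - 8388608

/-- coefficient of a form -/
def cf (f k : ℕ) : ℤ := (dig FTB 2 (10 * f + k) : ℤ) - 1

/-- the quadratic form of the root type `a` -/
def Kf (a f g : ℕ) : ℤ := sumZ 7 fun j => Lv a j f * Lv a j g

/-- the weight of a root -/
def dl (i a : ℕ) : ℤ := if pre a i then -1 else 6

/-- the contribution of a root of type `x` to a triple of types `x, y, z`; the arguments are the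
flags `x → y`, `x → z`, `y → z`, `z → y` -/
def Hf (x y z xy xz yz zy : ℕ) : ℤ :=
  Kf x xy xz + sumZ 3 fun i => (cv i y yz + cv i z zy) * dl i x

/-- the whole expression, in terms of flags -/
def Gf (x y z xy xz yz yx zx zy R : ℕ) : ℤ :=
  BB - SS * R - Hf x y z xy xz yz zy - Hf y x z yx yz xz zx - Hf z x y zx zy xy yx

/-- placement `p` uses present columns of labels of types at most three -/
def rok (t : ℕ → ℕ) (p : ℕ) : Bool :=
  allB 3 fun c => decide (t (pla p c) < 4) && pre (t (pla p c)) c

/-- upper bound for the number of good placements -/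
def Rn (t : ℕ → ℕ) (b : ℕ) : ℕ :=
  sumN 6 fun p => if rok t p && !(b.testBit (27 + p)) then 1 else 0

/-- the triple of types -/
def tt (x y z i : ℕ) : ℕ := if i = 0 then x else if i = 1 then y else z

/-- all forms that are needed -/
def ned (x y z : ℕ) : ℕ := msk x y ||| (msk x z <<< 9) ||| (msk y z <<< 18)

/-- the form `f` may be used for a split -/
def alw (x y z f : ℕ) : Bool :=
  (ned x y z).testBit f || (decide (27 ≤ f) && decide (f < 33) && rok (tt x y z) (f - 27))

/-- leaf of the first kind: the inequality -/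
def okL (x y z a b : ℕ) : Bool :=
  decide ((a ||| b) &&& ned x y z = ned x y z) &&
  force (a &&& msk x y) fun xy => force ((a >>> 9) &&& msk x z) fun xz =>
  force ((a >>> 18) &&& msk y z) fun yz =>
  force (rvc (msk y x) xy) fun yx => force (rvc (msk z x) xz) fun zx =>
  force (rvc (msk z y) yz) fun zy =>
  force (ixf x y xy) fun fxy => force (ixf x z xz) fun fxz => force (ixf y z yz) fun fyz =>
  force (ixf y x yx) fun fyx => force (ixf z x zx) fun fzx => force (ixf z y zy) fun fzy =>
  decide (0 ≤ Gf x y z fxy fxz fyz fyx fzx fzy (Rn (tt x y z) b))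

/-- the sign of the form `f` -/
def sg (a b f : ℕ) : ℤ :=
  if 33 ≤ f then (if f < 43 then 1 else 0) else if a.testBit f then 1
    else if b.testBit f then -1 else 0

/-- coefficient of a signed sum of forms -/
def sumV (a b k n : ℕ) : ℕ → ℤ :=
  Nat.rec (fun _ => 0) (fun _ ih c => if c = 0 then 0 else
    sg a b (c % 64 - 1) * cf (c % 64 - 1) k + ih (c / 64)) n

/-- leaf of the second kind: a contradiction -/
def badL (t : ℕ → ℕ) (a b c : ℕ) : Bool :=
  decide (c ≠ 0) && (a ||| b).testBit (c % 64 - 1) &&
  decide (c % 64 - 1 < 33) &&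
  decide (sumV a b (fpc (t 0)) 16 c + sumV a b (3 + fpc (t 1)) 16 c +
    sumV a b (6 + fpc (t 2)) 16 c + sumV a b 9 16 c = 0) &&
  allB 3 fun l => allB 3 fun k => !(pre (t l) k) ||
    decide (sumV a b (3 * l + k) 16 c = sumV a b (3 * l + fpc (t l)) 16 c)

/-- the checker -/
noncomputable def chk (x y z : ℕ) (T : Tr) : ℕ → ℕ → Bool :=
  Tr.rec (fun a b => okL x y z a b) (fun c a b => badL (tt x y z) a b c)
    (fun f _ _ ih1 ih2 a b => alw x y z f &&
      (force (a ||| 2 ^ f) fun a' => ih1 a' b) && (force (b ||| 2 ^ f) fun b' => ih2 a b')) T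

/-- the forms known to be negative at the beginning -/
def ini (x y z : ℕ) : ℕ :=
  (if x = y ∧ x < 4 then 2 ^ (4 * fpc x) else 0) |||
    (if y = z ∧ y < 4 then 2 ^ (18 + 4 * fpc y) else 0)

end Pool.Agent.BSub.KK
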