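import Mathlib
import Pool.Agent.Lib.MP_79bff1_ag_K.KChk

/-!
# MP_79bff1_ag: basic facts on the functions of the finite verification
-/

set_option autoImplicit false

namespace Pool.Agent.BSub.KK

theorem force_eq {α : Type} (n : ℕ) (k : ℕ → α) : force n k = k n := by
  cases n <;> rfl

theorem allB_iff (n : ℕ) (f : ℕ → Bool) : allB n f = true ↔ ∀ i < n, f i = true := by
  induction n with
  | zero => simp [allB]
  | succ n ih =>
    have h : allB (n + 1) f = (f n && allB n f) := rfl
    rw [h, Bool.and_eq_true, ih]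
    constructor
    · rintro ⟨h1, h2⟩ i hi
      rcases Nat.lt_succ_iff_lt_or_eq.1 hi with h3 | h3
      · exact h2 i h3
      · rw [h3]; exact h1
    · intro h1
      exact ⟨h1 n (Nat.lt_succ_self n), fun i hi => h1 i (Nat.lt_succ_of_lt hi)⟩

theorem sumZ_eq (n : ℕ) (f : ℕ → ℤ) : sumZ n f = ∑ i ∈ Finset.range n, f i := by
  induction n with
  | zero => rfl
  | succ n ih =>
    have h : sumZ (n + 1) f = sumZ n f + f n := rfl
    rw [h, ih, Finset.sum_range_succ]

theorem sumN_eq (n : ℕ) (f : ℕ → ℕ) : sumN n f = ∑ i ∈ Finset.range n, f i := by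
  induction n with
  | zero => rfl
  | succ n ih =>
    have h : sumN (n + 1) f = sumN n f + f n := rfl
    rw [h, ih, Finset.sum_range_succ]

theorem ofB_lt (n : ℕ) (b : ℕ → Bool) : ofB n b < 2 ^ n := by
  induction n with
  | zero => simp [ofB]
  | succ n ih =>
    have h : ofB (n + 1) b = ofB n b + (if b n then 2 ^ n else 0) := rfl
    rw [h, pow_succ]
    split_ifs <;> omega

theorem testBit_ofB (n : ℕ) (b : ℕ → Bool) (i : ℕ) :
    (ofB n b).testBit i = (decide (i < n) && b i) := by
  induction n with
  | zero => simp [ofB]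
  | succ n ih =>
    have h : ofB (n + 1) b = ofB n b + (if b n then 2 ^ n else 0) := rfl
    rcases lt_trichotomy i n with h1 | h1 | h1
    · rw [h]
      have h2 : decide (i < n + 1) = decide (i < n) := by
        rw [decide_eq_true h1, decide_eq_true (by omega : i < n + 1)]
      rw [h2, ← ih]
      split_ifs with h3
      · rw [add_comm, Nat.testBit_two_pow_add_gt h1]
      · rw [add_zero]
    · subst h1
      rw [h, decide_eq_true (by omega : i < i + 1), Bool.true_and]
      have h2 : (ofB i b).testBit i = false := Nat.testBit_lt_two_pow (ofB_lt i b)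
      split_ifs with h3
      · rw [add_comm, Nat.testBit_two_pow_add_eq, h2, h3]; rfl
      · rw [add_zero, h2]
        simpa using h3
    · rw [decide_eq_false (by omega : ¬ i < n + 1), Bool.false_and]
      refine Nat.testBit_lt_two_pow ((ofB_lt (n + 1) b).trans_le ?_)
      exact Nat.pow_le_pow_right (by norm_num) (by omega)

theorem dig_lt (T w i : ℕ) : dig T w i < 2 ^ w := Nat.mod_lt _ (by positivity)

theorem msk_testBit_ge (a b i : ℕ) (hi : 9 ≤ i) : (msk a b).testBit i = false := by
  refine Nat.testBit_lt_two_pow ((dig_lt MSK 9 (7 * a + b)).trans_le ?_)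
  exact Nat.pow_le_pow_right (by norm_num) hi

/-- symmetry of the masks -/
theorem msk_symm : ∀ a < 7, ∀ b < 7, ∀ i < 9,
    (msk a b).testBit (3 * (i % 3) + i / 3) = (msk b a).testBit i := by
  decide +kernel

theorem msk_pre_aux : ∀ a < 7, ∀ b < 7, ∀ i < 9, (!((msk a b).testBit i) ||
    (decide (a < 4) && decide (b < 4) && pre a (i / 3) && pre b (i % 3))) = true := by
  decide +kernel

/-- the masks only contain present columns -/
theorem msk_pre {a b i : ℕ} (ha : a < 7) (hb : b < 7) (hi : i < 9)
    (h : (msk a b).testBit i = true) :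
    a < 4 ∧ b < 4 ∧ pre a (i / 3) = true ∧ pre b (i % 3) = true := by
  have h1 := msk_pre_aux a ha b hb i hi
  rw [h, Bool.not_true, Bool.false_or] at h1
  simpa [and_assoc] using h1

theorem cf_pos : ∀ g < 10, ∀ k < 10, cf (33 + g) k = if k = g then 1 else 0 := by
  decide +kernel

theorem cf_pair : ∀ P < 3, ∀ i < 9, ∀ k < 10, cf (9 * P + i) k =
    (if k = 3 * (P / 2) + i / 3 then 1 else 0) +
      (if i % 4 = 0 then (if k = 3 * ((P + 3) / 2) + i % 3 then -1 else 0)
        else (if k = 3 * ((P + 3) / 2) + i % 3 then 1 else 0) - (if k = 9 then 1 else 0)) := by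
  decide +kernel

end Pool.Agent.BSub.KK
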