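import Pool.Agent.Lib.MP_79bff1_ag_K.KChk

/-!
# MP_79bff1_ag: kernel evaluation of the finite verification
-/

set_option autoImplicit false

namespace Pool.Agent.BSub.KK

theorem kc0 : chk 0 0 0 (tre 0) 0 (ini 0 0 0) = true := by
  decide +kernel

end Pool.Agent.BSub.KK
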