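import Pool.Agent.Lib.MP_79bff1_ag_K.KChk

/-!
# MP_79bff1_ag: kernel evaluation of the finite verification
-/

set_option autoImplicit false

namespace Pool.Agent.BSub.KK

theorem kc2 : allB 7 (fun y => Nat.beq y 0 || allB 7 fun z => !(Nat.ble y z) ||
    chk 0 y z (tre (7 * y + z)) 0 (ini 0 y z)) = true := by
  decide +kernel

end Pool.Agent.BSub.KK
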