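import Pool.Agent.Lib.MP_79bff1_ag_K.KChk

/-!
# MP_79bff1_ag: kernel evaluation of the finite verification
-/

set_option autoImplicit false

namespace Pool.Agent.BSub.KK

theorem kc3 : allB 7 (fun x => Nat.beq x 0 || allB 7 fun y => !(Nat.ble x y) ||
    allB 7 fun z => !(Nat.ble y z) ||
      chk x y z (tre (49 * x + 7 * y + z)) 0 (ini x y z)) = true := by
  decide +kernel

end Pool.Agent.BSub.KK
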