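import Pool.Agent.Lib.MP_79bff1_ag_K.KGen

/-!
# MP_79bff1_ag: the bound for the number of good triples of a weight system
-/

set_option autoImplicit false

namespace Pool.Agent.BSub.KK

open Finset Filter Topology

/-- sign conditions for the column `c` -/
def sgn (b : Bool) (x : ℝ) : Prop := if b = true then 0 ≤ x else x ≤ 0

theorem fpc_vals : fpc 0 = 0 ∧ fpc 1 = 1 ∧ fpc 2 = 0 ∧ fpc 3 = 0 ∧ fpc 4 = 0 ∧ fpc 5 = 1 ∧
    fpc 6 = 2 := by
  decide +kernel

theorem vec_le (b0 b1 b2 : Bool) (q : ℕ → ℝ) {T : ℝ} (hT : 0 < T) (hs : q 0 + q 1 + q 2 = T)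
    (h0 : sgn b0 (q 0)) (h1 : sgn b1 (q 1)) (h2 : sgn b2 (q 2)) {c : ℕ} (hc : c < 3)
    (hp : pre (tyB b0 b1 b2) c = true) :
    vec (tyB b0 b1 b2) (q 0) (q 1) (q 2) (min (q (fpc (tyB b0 b1 b2))) T) T c ≤ q c := by
  obtain ⟨f0, f1, f2, f3, f4, f5, f6⟩ := fpc_vals
  unfold sgn at h0 h1 h2
  cases b0 <;> cases b1 <;> cases b2 <;> simp only [tyB, f0, f1, f2, f3, f4, f5, f6] at hp ⊢ <;>
    simp only [Bool.false_eq_true, if_true, if_false] at h0 h1 h2 <;> interval_cases c <;>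
    first
    | exact absurd hp (by decide)
    | (simp only [vec]; linarith)
    | (simp only [vec]; exact min_le_left _ _)
    | (simp only [vec]
       rcases min_cases (q 0) T with h | h <;> linarith)
    | (simp only [vec]
       rcases min_cases (q 1) T with h | h <;> linarith)

theorem any_present {b0 b1 b2 : Bool} {q : ℕ → ℝ} {T : ℝ} (hT : 0 < T)
    (hs : q 0 + q 1 + q 2 = T) (h0 : sgn b0 (q 0)) (h1 : sgn b1 (q 1)) (h2 : sgn b2 (q 2)) :
    (b0 || b1 || b2) = true := by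
  unfold sgn at h0 h1 h2
  by_contra h
  rw [Bool.not_eq_true, Bool.or_eq_false_iff, Bool.or_eq_false_iff] at h
  obtain ⟨⟨e0, e1⟩, e2⟩ := h
  rw [e0] at h0
  rw [e1] at h1
  rw [e2] at h2
  simp only [Bool.false_eq_true, if_false] at h0 h1 h2
  linarith

theorem vec_nonneg (b0 b1 b2 : Bool) (q : ℕ → ℝ) {T : ℝ} (hT : 0 < T)
    (hs : q 0 + q 1 + q 2 = T)
    (h0 : sgn b0 (q 0)) (h1 : sgn b1 (q 1)) (h2 : sgn b2 (q 2)) {c : ℕ} (hc : c < 3) :
    0 ≤ vec (tyB b0 b1 b2) (q 0) (q 1) (q 2) (min (q (fpc (tyB b0 b1 b2))) T) T c := by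
  obtain ⟨f0, f1, f2, f3, f4, f5, f6⟩ := fpc_vals
  have hne := any_present hT hs h0 h1 h2
  unfold sgn at h0 h1 h2
  refine vec_nn (tyB_lt b0 b1 b2) ?_ ?_ (min_le_right _ _) hc
  · intro h
    cases b0 <;> cases b1 <;> cases b2 <;> simp only [tyB] at h <;>
      first
      | exact absurd h (by decide)
      | exact absurd hne (by decide)
      | exact ⟨by simpa using h0, by simpa using h1, by simpa using h2⟩
  · refine le_min ?_ hT.le
    cases b0 <;> cases b1 <;> cases b2 <;> simp only [tyB, f0, f1, f2, f3, f4, f5, f6] <;>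
      first
      | simpa using h0
      | simpa using h1
      | simpa using h2
      | exact absurd hne (by decide)

section core

variable {n : ℕ} (a : ℕ → Fin n → ℝ) (B : ℕ → Finset (Fin n)) (T : ℝ)

/-- the type of a label -/
def tyL (B : ℕ → Finset (Fin n)) (l : Fin n) : ℕ :=
  tyB (decide (l ∈ B 0)) (decide (l ∈ B 1)) (decide (l ∈ B 2))

/-- the coordinates of a label -/
noncomputable def cb (l : Fin n) (c : ℕ) : ℝ :=
  vec (tyL B l) (a 0 l) (a 1 l) (a 2 l) (min (a (fpc (tyL B l)) l) T) T c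

theorem core {j : ℕ} (hn : n = 7 * j) (hT : 0 < T) (hs : ∀ l, a 0 l + a 1 l + a 2 l = T)
    (hB : ∀ c < 3, ∀ l ∈ B c, 0 ≤ a c l) (hB' : ∀ c < 3, ∀ l ∉ B c, a c l ≤ 0)
    (hc : ∀ c < 3, (B c).card = 6 * j) :
    ((univ.filter fun f : Fin n × Fin n × Fin n => f.1 ∈ B 0 ∧ f.2.1 ∈ B 1 ∧ f.2.2 ∈ B 2 ∧
      a 0 f.1 + a 1 f.2.1 + a 2 f.2.2 < T).card : ℝ) ≤
      111 / 343 * (n : ℝ) ^ 3 + 473 * (n : ℝ) ^ 2 := by
  classical
  have hsg : ∀ c < 3, ∀ l, sgn (decide (l ∈ B c)) (a c l) := by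
    intro c hc l
    unfold sgn
    by_cases h : l ∈ B c
    · rw [if_pos (by simpa using h)]; exact hB c hc l h
    · rw [if_neg (by simpa using h)]; exact hB' c hc l h
  have hany : ∀ l, (decide (l ∈ B 0) || decide (l ∈ B 1) || decide (l ∈ B 2)) = true := fun l =>
    any_present (q := fun c => a c l) hT (hs l) (hsg 0 (by omega) l) (hsg 1 (by omega) l)
      (hsg 2 (by omega) l)
  have hpre : ∀ l, ∀ c < 3, pre (tyL B l) c = decide (l ∈ B c) := by
    intro l c hc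
    obtain ⟨h0, h1, h2⟩ := tyB_pre _ _ _ (hany l)
    interval_cases c
    · exact h0
    · exact h1
    · exact h2
  have hlt : ∀ l, tyL B l < 7 := fun l => tyB_lt _ _ _
  have hle : ∀ l, ∀ c < 3, l ∈ B c → cb a B T l c ≤ a c l := by
    intro l c hc hl
    exact vec_le _ _ _ (fun c => a c l) hT (hs l) (hsg 0 (by omega) l) (hsg 1 (by omega) l)
      (hsg 2 (by omega) l) hc (by rw [← decide_eq_true hl, ← hpre l c hc]; rfl)
  have hnn : ∀ l, ∀ c < 3, 0 ≤ cb a B T l c := fun l c hc =>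
    vec_nonneg _ _ _ (fun c => a c l) hT (hs l) (hsg 0 (by omega) l) (hsg 1 (by omega) l)
      (hsg 2 (by omega) l) hc
  have hsum : ∀ l, cb a B T l 0 + cb a B T l 1 + cb a B T l 2 = T := fun l =>
    vec_sm (hlt l) (hs l)
  have hab : ∀ l, ∀ c < 3, pre (tyL B l) c = false → cb a B T l c = 0 := fun l c hc h =>
    vec_ab (hlt l) _ _ _ _ _ hc h
  have hval : ∀ l m : Fin n, l ≠ m → (l : ℕ) ≠ (m : ℕ) := fun l m h h' => h (Fin.ext h')
  have E1 : ∀ᶠ δ : ℝ in 𝓝[>] 0, ∀ l m : Fin n, ∀ u : Fin 3, l ≠ m → tyL B l < 4 → tyL B m < 4 →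
      pre (tyL B l) u = true → pre (tyL B m) u = true →
      (1 - δ) * (cb a B T l u - cb a B T m u) +
        δ * (T * (gv (tyL B l) l u - gv (tyL B m) m u)) ≠ 0 := by
    simp only [eventually_all, eventually_imp_distrib_left]
    intro l m u h1 h2 h3 h4 h5
    exact ev_ne (mul_ne_zero hT.ne' (sub_ne_zero.2 (gv1 (hval l m h1) h2 h3 u.2 h4 h5)))
  have E2 : ∀ᶠ δ : ℝ in 𝓝[>] 0, ∀ l m : Fin n, ∀ u v : Fin 3, l ≠ m → tyL B l < 4 →
      tyL B m < 4 → u ≠ v → pre (tyL B l) u = true → pre (tyL B m) v = true →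
      (1 - δ) * (cb a B T l u + cb a B T m v - T) +
        δ * (T * (gv (tyL B l) l u + gv (tyL B m) m v - 1)) ≠ 0 := by
    simp only [eventually_all, eventually_imp_distrib_left]
    intro l m u v h1 h2 h3 h4 h5 h6
    exact ev_ne (mul_ne_zero hT.ne' (sub_ne_zero.2 (gv2 (hval l m h1) h2 h3 u.2 v.2
      (fun h => h4 (Fin.ext h)) h5 h6)))
  have E3 : ∀ᶠ δ : ℝ in 𝓝[>] 0, ∀ p q r : Fin n, p ≠ q → p ≠ r → q ≠ r → tyL B p < 4 →
      tyL B q < 4 → tyL B r < 4 → pre (tyL B p) 0 = true → pre (tyL B q) 1 = true →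
      pre (tyL B r) 2 = true →
      (1 - δ) * (cb a B T p 0 + cb a B T q 1 + cb a B T r 2 - T) +
        δ * (T * (gv (tyL B p) p 0 + gv (tyL B q) q 1 + gv (tyL B r) r 2 - 1)) ≠ 0 := by
    simp only [eventually_all, eventually_imp_distrib_left]
    intro p q r h1 h2 h3 h4 h5 h6 h7 h8 h9
    exact ev_ne (mul_ne_zero hT.ne' (sub_ne_zero.2 (gv3 (hval p q h1) (hval p r h2)
      (hval q r h3) h4 h5 h6 h7 h8 h9)))
  have E4 : ∀ᶠ δ : ℝ in 𝓝[>] 0, ∀ p q r : Fin n,
      cb a B T p 0 + cb a B T q 1 + cb a B T r 2 < T →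
      (1 - δ) * (cb a B T p 0 + cb a B T q 1 + cb a B T r 2) +
        δ * (T * (gv (tyL B p) p 0 + gv (tyL B q) q 1 + gv (tyL B r) r 2)) < T := by
    simp only [eventually_all, eventually_imp_distrib_left]
    intro p q r h
    exact ev_lt h
  have E5 : ∀ᶠ δ : ℝ in 𝓝[>] 0, δ < 1 :=
    (tendsto_nhdsWithin_of_tendsto_nhds tendsto_id).eventually_lt_const (by norm_num)
  have E6 : ∀ᶠ δ : ℝ in 𝓝[>] 0, 0 < δ := self_mem_nhdsWithin
  obtain ⟨δ, ⟨⟨⟨⟨⟨e1, e2⟩, e3⟩, e4⟩, e5⟩, e6⟩⟩ :=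
    (((((E1.and E2).and E3).and E4).and E5).and E6).exists
  let s : Sys n :=
    { ty := tyL B
      co := fun l c => (1 - δ) * cb a B T l c + δ * (T * gv (tyL B l) l c)
      T := T
      T_pos := hT
      ty_lt := hlt
      nn := fun l c hc => add_nonneg (mul_nonneg (by linarith) (hnn l c hc))
        (mul_nonneg e6.le (mul_nonneg hT.le (gv_nn (hlt l) l hc)))
      ab := fun l c hc h => by
        have h1 : gv (tyL B l) l c = 0 := vec_ab (hlt l) _ _ _ _ _ hc h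
        rw [hab l c hc h, h1]; ring
      sm := fun l => by
        have h1 := hsum l
        have h2 := gv_sm (hlt l) (l : ℕ)
        linear_combination (1 - δ) * h1 + δ * T * h2
      g1 := fun l m h1 h2 h3 u hu h4 h5 h6 => by
        refine e1 l m ⟨u, hu⟩ h1 h2 h3 h4 h5 ?_
        simp only
        linear_combination h6
      g2 := fun l m h1 h2 h3 u hu v hv h4 h5 h6 h7 => by
        refine e2 l m ⟨u, hu⟩ ⟨v, hv⟩ h1 h2 h3 (fun h => h4 (Fin.mk.inj h)) h5 h6 ?_
        simp only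
        linear_combination h7
      g3 := fun p q r h1 h2 h3 h4 h5 h6 h7 h8 h9 h10 => by
        refine e3 p q r h1 h2 h3 h4 h5 h6 h7 h8 h9 ?_
        linear_combination h10 }
  have h0 : ∀ i < 3, ∑ l, dl i (s.ty l) = 0 := by
    intro i hi
    have h1 : ∀ l, dl i (s.ty l) = 6 - 7 * (if l ∈ B i then 1 else 0) := by
      intro l
      unfold dl
      rw [show s.ty l = tyL B l from rfl, hpre l i hi]
      by_cases h : l ∈ B i
      · rw [if_pos (by simpa using h), if_pos h]; norm_num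
      · rw [if_neg (by simpa using h), if_neg h]; norm_num
    simp only [h1, sum_sub_distrib, ← mul_sum, sum_const, card_univ, Fintype.card_fin,
      sum_ite_mem, univ_inter, nsmul_eq_mul, mul_one]
    rw [hc i hi, hn]
    push_cast
    ring
  refine le_trans ?_ (s.main_real h0)
  have hN : s.N = (univ.filter fun f : Fin n × Fin n × Fin n =>
      s.good f.1 f.2.1 f.2.2).card := by
    rw [card_filter, Fintype.sum_prod_type]
    simp only [Fintype.sum_prod_type]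
    unfold Sys.N Sys.gd
    rfl
  rw [hN]
  norm_cast
  refine card_le_card fun f hf => ?_
  rw [mem_filter] at hf ⊢
  obtain ⟨-, h1, h2, h3, h4⟩ := hf
  refine ⟨mem_univ _, ?_, ?_, ?_, ?_⟩
  · show pre (tyL B f.1) 0 = true
    rw [hpre _ 0 (by omega)]; exact decide_eq_true h1
  · show pre (tyL B f.2.1) 1 = true
    rw [hpre _ 1 (by omega)]; exact decide_eq_true h2
  · show pre (tyL B f.2.2) 2 = true
    rw [hpre _ 2 (by omega)]; exact decide_eq_true h3
  · show (1 - δ) * cb a B T f.1 0 + δ * (T * gv (tyL B f.1) f.1 0) +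
      ((1 - δ) * cb a B T f.2.1 1 + δ * (T * gv (tyL B f.2.1) f.2.1 1)) +
      ((1 - δ) * cb a B T f.2.2 2 + δ * (T * gv (tyL B f.2.2) f.2.2 2)) < T
    have h5 := e4 f.1 f.2.1 f.2.2 (by
      have := hle f.1 0 (by omega) h1
      have := hle f.2.1 1 (by omega) h2
      have := hle f.2.2 2 (by omega) h3
      linarith)
    linarith

end core

end Pool.Agent.BSub.KK
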