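import Mathlib.Data.Nat.Bitwise
import Mathlib.Data.Int.Notation
import Mathlib.Data.List.Basic

/-!
# MP_79bff1_ag: the finite verification behind the sharp upper bound for three factors

Labels have a type `0, …, 6`: type `0` is present in all three columns, the types `1, 2, 3` are
absent from the column `0, 1, 2`, the types `4, 5, 6` are present in the column `0, 1, 2` only.
-/

set_option autoImplicit false

namespace Pool.Agent.BSub.KK

/-- the digit number `i` of `T` in base `2 ^ w` -/
def dig (T w i : ℕ) : ℕ := (T >>> (w * i)) % 2 ^ w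

/-- for all `i < n` -/
def allB (n : ℕ) (f : ℕ → Bool) : Bool := Nat.rec true (fun i ih => f i && ih) n

/-- sum of integers over `i < n` -/
def sumZ (n : ℕ) (f : ℕ → ℤ) : ℤ := Nat.rec 0 (fun i ih => ih + f i) n

/-- sum of naturals over `i < n` -/
def sumN (n : ℕ) (f : ℕ → ℕ) : ℕ := Nat.rec 0 (fun i ih => ih + f i) n

/-- a device that makes the kernel evaluate a number -/
def force {α : Type} (n : ℕ) (k : ℕ → α) : α := Nat.rec (k 0) (fun m _ => k (m + 1)) n

/-- the binary number with the digits `b i`, `i < n` -/
def ofB (n : ℕ) (b : ℕ → Bool) : ℕ := Nat.rec 0 (fun i ih => ih + (if b i then 2 ^ i else 0)) n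

/-- column `c` is present in type `t` -/
def pre (t c : ℕ) : Bool := (dig 0o4213567 3 t).testBit c

/-- the first present column of a type -/
def fpc (t : ℕ) : ℕ := dig 0x2404 2 t

/-- the code of the reversed pair, for the mask `m` of the reversed pair -/
def rvc (m c : ℕ) : ℕ :=
  ofB 9 fun i => m.testBit i &&
    (if i % 4 = 0 then !(c.testBit i) else c.testBit (3 * (i % 3) + i / 3))

/-- the label that the placement `p` puts in the column `c` -/
def pla (p c : ℕ) : ℕ := dig 0x61209211824 2 (4 * p + c)

end Pool.Agent.BSub.KK
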