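import Pool.Agent.Lib.MP_79bff1_ag_K.KSum

/-!
# MP_79bff1_ag: from weights to systems of labels in general position
-/

set_option autoImplicit false

namespace Pool.Agent.BSub.KK

open Finset Filter Topology

/-- the coordinates of a label of type `t` -/
def vec (t : ℕ) (x y z m S : ℝ) (c : ℕ) : ℝ :=
  match t, c with
  | 0, 0 => x
  | 0, 1 => y
  | 0, 2 => z
  | 1, 1 => m
  | 1, 2 => S - m
  | 2, 0 => m
  | 2, 2 => S - m
  | 3, 0 => m
  | 3, 1 => S - m
  | 4, 0 => S
  | 5, 1 => S
  | 6, 2 => S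
  | _, _ => 0

theorem vec_ab {t : ℕ} (ht : t < 7) (x y z m S : ℝ) {c : ℕ} (hc : c < 3)
    (h : pre t c = false) : vec t x y z m S c = 0 := by
  interval_cases t <;> interval_cases c <;> first | rfl | exact absurd h (by decide)

theorem vec_sm {t : ℕ} (ht : t < 7) {x y z m S : ℝ} (h : x + y + z = S) :
    vec t x y z m S 0 + vec t x y z m S 1 + vec t x y z m S 2 = S := by
  interval_cases t <;> simp only [vec] <;> linarith

theorem vec_nn {t : ℕ} (ht : t < 7) {x y z m S : ℝ} (h0 : t = 0 → 0 ≤ x ∧ 0 ≤ y ∧ 0 ≤ z)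
    (hm : 0 ≤ m) (hS : m ≤ S) {c : ℕ} (hc : c < 3) : 0 ≤ vec t x y z m S c := by
  interval_cases t
  · obtain ⟨h1, h2, h3⟩ := h0 rfl
    interval_cases c <;> assumption
  all_goals interval_cases c <;> simp only [vec] <;> linarith

/-- the type of a label that is present in the columns given by `b0`, `b1`, `b2` -/
def tyB : Bool → Bool → Bool → ℕ
  | true, true, true => 0
  | false, true, true => 1
  | true, false, true => 2
  | true, true, false => 3
  | true, false, false => 4
  | false, true, false => 5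
  | false, false, true => 6
  | false, false, false => 0

theorem tyB_lt (a b c : Bool) : tyB a b c < 7 := by
  cases a <;> cases b <;> cases c <;> decide

theorem tyB_pre (a b c : Bool) (h : (a || b || c) = true) :
    pre (tyB a b c) 0 = a ∧ pre (tyB a b c) 1 = b ∧ pre (tyB a b c) 2 = c := by
  cases a <;> cases b <;> cases c <;> first | decide | exact absurd h (by decide)

/-- small numbers in general position -/
noncomputable def ep (l : ℕ) : ℝ := (1 / 100) ^ (l + 1)

theorem ep_pos (l : ℕ) : 0 < ep l := by unfold ep; positivity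

theorem ep_le (l : ℕ) : ep l ≤ 1 / 100 := by
  unfold ep
  rw [pow_succ]
  have : ((1 : ℝ) / 100) ^ l ≤ 1 := pow_le_one₀ (by norm_num) (by norm_num)
  linarith

theorem ep_sep {l m : ℕ} (h : l ≠ m) : 100 * ep m ≤ ep l ∨ 100 * ep l ≤ ep m := by
  have key : ∀ a b : ℕ, a < b → 100 * ep b ≤ ep a := by
    intro a b hab
    unfold ep
    have h1 : ((1 : ℝ) / 100) ^ (b + 1) ≤ (1 / 100) ^ (a + 1 + 1) :=
      pow_le_pow_of_le_one (by norm_num) (by norm_num) (by omega)
    rw [pow_succ ((1 : ℝ) / 100) (a + 1)] at h1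
    linarith
  rcases lt_or_gt_of_ne h with h1 | h1
  · exact Or.inl (key l m h1)
  · exact Or.inr (key m l h1)

/-- the coordinates in general position -/
noncomputable def gv (t l : ℕ) (c : ℕ) : ℝ :=
  vec t (1 / 3 + ep l) (1 / 3 + ep l / 10) (1 / 3 - 11 / 10 * ep l) (1 / 2 + ep l) 1 c

theorem gv_sm {t : ℕ} (ht : t < 7) (l : ℕ) : gv t l 0 + gv t l 1 + gv t l 2 = 1 :=
  vec_sm ht (by ring)

theorem gv_nn {t : ℕ} (ht : t < 7) (l : ℕ) {c : ℕ} (hc : c < 3) : 0 ≤ gv t l c := by
  have h1 := ep_pos l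
  have h2 := ep_le l
  exact vec_nn ht (fun _ => ⟨by linarith, by linarith, by linarith⟩) (by linarith)
    (by linarith) hc

theorem gv1 {t t' l m : ℕ} (hlm : l ≠ m) (ht : t < 4) (ht' : t' < 4) {u : ℕ} (hu : u < 3)
    (h1 : pre t u = true) (h2 : pre t' u = true) : gv t l u ≠ gv t' m u := by
  have a1 := ep_pos l
  have a2 := ep_le l
  have a3 := ep_pos m
  have a4 := ep_le m
  have a5 := ep_sep hlm
  unfold gv
  interval_cases t <;> interval_cases t' <;> interval_cases u <;>
    first
    | exact absurd h1 (by decide)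
    | exact absurd h2 (by decide)
    | (simp only [vec]; intro h; rcases a5 with a5 | a5 <;> linarith)

theorem gv2 {t t' l m : ℕ} (hlm : l ≠ m) (ht : t < 4) (ht' : t' < 4) {u v : ℕ} (hu : u < 3)
    (hv : v < 3) (huv : u ≠ v) (h1 : pre t u = true) (h2 : pre t' v = true) :
    gv t l u + gv t' m v ≠ 1 := by
  have a1 := ep_pos l
  have a2 := ep_le l
  have a3 := ep_pos m
  have a4 := ep_le m
  have a5 := ep_sep hlm
  unfold gv
  interval_cases t <;> interval_cases t' <;> interval_cases u <;> interval_cases v <;>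
    first
    | exact absurd rfl huv
    | exact absurd h1 (by decide)
    | exact absurd h2 (by decide)
    | (simp only [vec]; intro h; rcases a5 with a5 | a5 <;> linarith)

theorem gv3 {t0 t1 t2 p q r : ℕ} (hpq : p ≠ q) (hpr : p ≠ r) (hqr : q ≠ r) (h0 : t0 < 4)
    (h1 : t1 < 4) (h2 : t2 < 4) (p0 : pre t0 0 = true) (p1 : pre t1 1 = true)
    (p2 : pre t2 2 = true) : gv t0 p 0 + gv t1 q 1 + gv t2 r 2 ≠ 1 := by
  have a1 := ep_pos p
  have a2 := ep_le p
  have a3 := ep_pos q
  have a4 := ep_le q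
  have a5 := ep_pos r
  have a6 := ep_le r
  have a7 := ep_sep hpq
  have a8 := ep_sep hpr
  have a9 := ep_sep hqr
  unfold gv
  interval_cases t0 <;> interval_cases t1 <;> interval_cases t2 <;>
    first
    | exact absurd p0 (by decide)
    | exact absurd p1 (by decide)
    | exact absurd p2 (by decide)
    | (simp only [vec]; intro h
       rcases a7 with a7 | a7 <;> rcases a8 with a8 | a8 <;> rcases a9 with a9 | a9 <;> linarith)

theorem ev_ne {A G : ℝ} (hG : G ≠ 0) : ∀ᶠ δ : ℝ in 𝓝[>] 0, (1 - δ) * A + δ * G ≠ 0 := by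
  by_cases hA : A = 0
  · filter_upwards [self_mem_nhdsWithin] with δ hδ
    rw [hA, mul_zero, zero_add]
    exact mul_ne_zero (ne_of_gt hδ) hG
  · have hc : Tendsto (fun δ : ℝ => (1 - δ) * A + δ * G) (𝓝[>] 0) (𝓝 ((1 - 0) * A + 0 * G)) := by
      refine Tendsto.mono_left (Continuous.tendsto (by fun_prop) 0) nhdsWithin_le_nhds
    have h1 : (1 - 0) * A + 0 * G ≠ 0 := by simpa using hA
    exact hc.eventually_ne h1

theorem ev_lt {A G T : ℝ} (hA : A < T) : ∀ᶠ δ : ℝ in 𝓝[>] 0, (1 - δ) * A + δ * G < T := by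
  have hc : Tendsto (fun δ : ℝ => (1 - δ) * A + δ * G) (𝓝[>] 0) (𝓝 ((1 - 0) * A + 0 * G)) := by
    refine Tendsto.mono_left (Continuous.tendsto (by fun_prop) 0) nhdsWithin_le_nhds
  have h1 : (1 - 0) * A + 0 * G < T := by simpa using hA
  exact hc.eventually_lt_const h1

end Pool.Agent.BSub.KK
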