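import Pool.Agent.Lib.MP_79bff1_ag_K.KCore
import Pool.Agent.Lib.MP_79bff1_ag.Final
import Pool.Agent.Lib.MP_79bff1_ag.KapLim

/-!
# MP_79bff1_ag: lower bound for `kap 3`
-/

set_option autoImplicit false

namespace Pool.Agent.BSub.KK

open Finset Filter Topology

theorem exists_low {n k : ℕ} (hk : k ≤ n) (w : Fin n → ℝ) :
    ∃ B : Finset (Fin n), B.card = k ∧ ∀ l ∈ B, ∀ m ∉ B, w l ≤ w m := by
  classical
  have hne : (powersetCard k (univ : Finset (Fin n))).Nonempty :=
    powersetCard_nonempty.2 (by rw [card_univ, Fintype.card_fin]; exact hk)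
  obtain ⟨B, hB, hmin⟩ := exists_min_image _ (fun B : Finset (Fin n) => ∑ l ∈ B, w l) hne
  rw [mem_powersetCard] at hB
  refine ⟨B, hB.2, fun l hl m hm => ?_⟩
  by_contra hlt
  rw [not_le] at hlt
  have hm' : m ∉ B.erase l := fun h => hm (mem_of_mem_erase h)
  have h1 := hmin (insert m (B.erase l)) (by
    rw [mem_powersetCard, card_insert_of_notMem hm', card_erase_of_mem hl]
    refine ⟨subset_univ _, ?_⟩
    have : 0 < B.card := card_pos.2 ⟨l, hl⟩
    omega)
  rw [sum_insert hm'] at h1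
  have h2 := add_sum_erase B w hl
  linarith

theorem few_positive {j : ℕ} (hj : 1 ≤ j) (w : Fin 3 → Fin (7 * j) → ℝ) (hw : ZeroSum w)
    (B : Fin 3 → Finset (Fin (7 * j))) (hB : ∀ x, (B x).card = 6 * j)
    (hlow : ∀ x, ∀ l ∈ B x, ∀ m ∉ B x, w x l ≤ w x m) :
    (((Fintype.piFinset B).filter fun f => 0 < ∑ x, w x (f x)).card : ℝ) ≤
      111 / 343 * ((7 * j : ℕ) : ℝ) ^ 3 + 473 * ((7 * j : ℕ) : ℝ) ^ 2 := by
  classical
  have hmax : ∀ x, ∃ t : ℝ, (∀ l ∈ B x, w x l ≤ t) ∧ ∀ m ∉ B x, t ≤ w x m := by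
    intro x
    have hne : (B x).Nonempty := card_pos.1 (by rw [hB x]; omega)
    obtain ⟨l, hl, hl'⟩ := exists_max_image (B x) (w x) hne
    exact ⟨w x l, hl', fun m hm => hlow x l hl m hm⟩
  choose t ht1 ht2 using hmax
  rcases le_or_gt (t 0 + t 1 + t 2) 0 with hT | hT
  · have h0 : (Fintype.piFinset B).filter (fun f => 0 < ∑ x, w x (f x)) = ∅ := by
      rw [filter_eq_empty_iff]
      intro f hf
      rw [Fintype.mem_piFinset] at hf
      rw [Fin.sum_univ_three, not_lt]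
      linarith [ht1 0 (f 0) (hf 0), ht1 1 (f 1) (hf 1), ht1 2 (f 2) (hf 2)]
    rw [h0, card_empty]
    push_cast
    positivity
  · let a : ℕ → Fin (7 * j) → ℝ := fun c l => if h : c < 3 then t ⟨c, h⟩ - w ⟨c, h⟩ l else 0
    let B' : ℕ → Finset (Fin (7 * j)) := fun c => if h : c < 3 then B ⟨c, h⟩ else ∅
    have a0 : ∀ l, a 0 l = t 0 - w 0 l := fun l => rfl
    have a1 : ∀ l, a 1 l = t 1 - w 1 l := fun l => rfl
    have a2 : ∀ l, a 2 l = t 2 - w 2 l := fun l => rfl
    have hz : ∀ l, w 0 l + w 1 l + w 2 l = 0 := by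
      intro l
      have := hw l
      rwa [Fin.sum_univ_three] at this
    have hcore := core (n := 7 * j) a B' (t 0 + t 1 + t 2) (j := j) rfl hT
      (fun l => by rw [a0, a1, a2]; linarith [hz l])
      (fun c hc l hl => by
        have h1 : a c l = t ⟨c, hc⟩ - w ⟨c, hc⟩ l := dif_pos hc
        have h2 : B' c = B ⟨c, hc⟩ := dif_pos hc
        rw [h1]; rw [h2] at hl
        linarith [ht1 _ l hl])
      (fun c hc l hl => by
        have h1 : a c l = t ⟨c, hc⟩ - w ⟨c, hc⟩ l := dif_pos hc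
        have h2 : B' c = B ⟨c, hc⟩ := dif_pos hc
        rw [h1]; rw [h2] at hl
        linarith [ht2 _ l hl])
      (fun c hc => by
        have h2 : B' c = B ⟨c, hc⟩ := dif_pos hc
        rw [h2, hB])
    refine le_trans ?_ hcore
    norm_cast
    refine card_le_card_of_injOn (fun f => (f 0, f 1, f 2)) ?_ ?_
    · intro f hf
      rw [mem_coe, mem_filter, Fintype.mem_piFinset, Fin.sum_univ_three] at hf
      rw [mem_coe, mem_filter]
      refine ⟨mem_univ _, hf.1 0, hf.1 1, hf.1 2, ?_⟩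
      rw [a0, a1, a2]
      linarith [hf.2]
    · intro f _ g _ hfg
      simp only [Prod.mk.injEq] at hfg
      funext x
      fin_cases x
      · exact hfg.1
      · exact hfg.2.1
      · exact hfg.2.2

theorem kap_low {j : ℕ} (hj : 1 ≤ j) :
    5 / 42 * ((7 * j : ℕ) : ℝ) ^ 2 - 1289 * j ≤ kap 3 (7 * j) := by
  classical
  obtain ⟨w, hw, hF⟩ := kp_feasible (d := 3) (r := 7 * j) (by norm_num)
  have hex : ∀ x, ∃ B : Finset (Fin (7 * j)), B.card = 6 * j ∧
      ∀ l ∈ B, ∀ m ∉ B, w x l ≤ w x m := fun x => exists_low (by omega) (w x)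
  choose B hB hlow using hex
  have h1 := few_positive hj w hw B hB hlow
  have h2 := hF B
  have h3 : ∑ x, (B x).card = 18 * j := by
    rw [Fin.sum_univ_three, hB, hB, hB]; ring
  rw [h3] at h2
  have h4 : (Fintype.piFinset B).card = (6 * j) ^ 3 := by
    rw [Fintype.card_piFinset]
    simp only [hB, prod_const, card_univ, Fintype.card_fin]
  have h5 : (Fintype.piFinset B).card ≤ (wSet w B).card + 6 * j +
      ((Fintype.piFinset B).filter fun f => 0 < ∑ x, w x (f x)).card := by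
    have h6 : Fintype.piFinset B ⊆ wSet w B ∪ ((B 0).image fun l => (fun _ : Fin 3 => l)) ∪
        ((Fintype.piFinset B).filter fun f => 0 < ∑ x, w x (f x)) := by
      intro f hf
      rw [mem_union, mem_union]
      by_cases hc : ∀ x y, f x = f y
      · left; right
        rw [mem_image]
        exact ⟨f 0, (Fintype.mem_piFinset.1 hf) 0, funext fun x => hc 0 x⟩
      · by_cases hs : 0 < ∑ x, w x (f x)
        · right
          rw [mem_filter]
          exact ⟨hf, hs⟩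
        · left; left
          rw [kp_mem_wSet]
          exact ⟨Fintype.mem_piFinset.1 hf, hc, not_lt.1 hs⟩
    refine (card_le_card h6).trans ((card_union_le _ _).trans ?_)
    refine Nat.add_le_add_right ((card_union_le _ _).trans (Nat.add_le_add_left ?_ _)) _
    exact card_image_le.trans (hB 0).le
  rw [h4] at h5
  have h7 : ((6 * j : ℕ) : ℝ) ^ 3 ≤ (kap 3 (7 * j) : ℝ) * (18 * j) + 6 * j +
      (111 / 343 * ((7 * j : ℕ) : ℝ) ^ 3 + 473 * ((7 * j : ℕ) : ℝ) ^ 2) := by
    have h8 : (((6 * j) ^ 3 : ℕ) : ℝ) ≤ ((wSet w B).card : ℝ) + 6 * j +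
      (((Fintype.piFinset B).filter fun f => 0 < ∑ x, w x (f x)).card : ℝ) := by
      exact_mod_cast h5
    have h9 : ((wSet w B).card : ℝ) ≤ (kap 3 (7 * j) : ℝ) * (18 * j) := by
      exact_mod_cast h2
    push_cast at h8 h1 ⊢
    linarith
  have hj' : (1 : ℝ) ≤ (j : ℝ) := by exact_mod_cast hj
  have hj0 : (0 : ℝ) < (j : ℝ) := by linarith
  push_cast at h7 ⊢
  have h10 : (j : ℝ) * (105 * (j : ℝ) ^ 2 - 23177 * j - 6) ≤
      (j : ℝ) * (18 * (kap 3 (7 * j) : ℝ)) := by nlinarith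
  have h11 := le_of_mul_le_mul_left h10 hj0
  nlinarith

theorem kappa_ge {κ : ℝ}
    (h : Tendsto (fun r : ℕ => (kap 3 r : ℝ) / (r : ℝ) ^ (3 - 1)) atTop (𝓝 κ)) :
    5 / 42 ≤ κ := by
  have h1 : Tendsto (fun j : ℕ => 7 * (j + 1)) atTop atTop :=
    tendsto_atTop_mono (fun j => (by simp only [id]; omega : id j ≤ 7 * (j + 1))) tendsto_id
  have h2 := h.comp h1
  have h3 : Tendsto (fun j : ℕ => (5 / 42 : ℝ) - 27 * (1 / ((j : ℝ) + 1))) atTop
      (𝓝 (5 / 42 - 27 * 0)) :=
    tendsto_const_nhds.sub (tendsto_one_div_add_atTop_nhds_zero_nat.const_mul 27)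
  rw [mul_zero, sub_zero] at h3
  refine le_of_tendsto_of_tendsto' h3 h2 fun j => ?_
  have h4 := kap_low (j := j + 1) (by omega)
  simp only [Function.comp]
  have hj : (0 : ℝ) < (j : ℝ) + 1 := by positivity
  rw [le_div_iff₀ (by positivity)]
  push_cast at h4 ⊢
  have h5 : (5 / 42 - 27 * (1 / ((j : ℝ) + 1))) * (7 * ((j : ℝ) + 1)) ^ (3 - 1) =
      5 / 42 * (7 * ((j : ℝ) + 1)) ^ 2 - 1323 * ((j : ℝ) + 1) := by
    field_simp
    ring
  rw [h5]
  linarith

/-- the bound for all numbers of labels -/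
theorem kap_all {r : ℕ} (hr : 1 ≤ r) : 5 / 42 * (r : ℝ) ^ 2 ≤ kap 3 r + 1 := by
  obtain ⟨κ, -, -, h3, h4⟩ := exists_kap_limit (d := 3) le_rfl
  have h5 := kappa_ge h3
  have h6 := h4 r hr
  have hr' : (0 : ℝ) < (r : ℝ) ^ 2 := by positivity
  rw [show (3 - 1 : ℕ) = 2 from rfl, le_div_iff₀ hr'] at h6
  nlinarith

/-- the sharp upper bound for three factors -/
theorem gbs_sharp {n : ℕ} : (genBorderSubrank 3 n : ℝ) ^ 2 ≤ 8.4 * (n + 1) := by
  set Q := genBorderSubrank 3 n with hQ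
  rcases Nat.eq_zero_or_pos Q with h0 | h0
  · rw [h0]
    norm_num
    positivity
  · have h1 : kap 3 Q ≤ n := by
      by_contra h
      have := (gbs_sandwich (d := 3) (n := n) (r := Q) (by norm_num)).2 (by omega)
      omega
    have h2 := kap_all (r := Q) h0
    have h3 : (kap 3 Q : ℝ) ≤ n := by exact_mod_cast h1
    norm_num
    linarith

end Pool.Agent.BSub.KK
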