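import Pool.Agent.Lib.MP_79bff1_ag_K.KSys

/-!
# MP_79bff1_ag: the inequality for three different labels
-/

set_option autoImplicit false

namespace Pool.Agent.BSub.KK

open Finset

namespace Sys

variable {n : ℕ} (s : Sys n)

/-- the label number `i` -/
def lab (x y z : Fin n) (i : ℕ) : Fin n := if i = 0 then x else if i = 1 then y else z

theorem tt_lab (x y z : Fin n) (i : ℕ) :
    tt (s.ty x) (s.ty y) (s.ty z) i = s.ty (lab x y z i) := by
  unfold tt lab
  split_ifs <;> rfl

theorem X_lab (x y z : Fin n) {i c : ℕ} (hi : i < 3) (hc : c < 3) :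
    s.X x y z (3 * i + c) = s.co (lab x y z i) c := by
  unfold lab
  split_ifs with h1 h2
  · rw [h1, show 3 * 0 + c = c by omega, X0 s x y z hc]
  · rw [h2, show 3 * 1 + c = 3 + c by omega, X1 s x y z hc]
  · rw [show 3 * i + c = 6 + c by omega, X2 s x y z hc]

theorem lab_ne {x y z : Fin n} (hxy : x ≠ y) (hxz : x ≠ z) (hyz : y ≠ z) {i j : ℕ} (hi : i < 3)
    (hj : j < 3) (h : i ≠ j) : lab x y z i ≠ lab x y z j := by
  unfold lab
  interval_cases i <;> interval_cases j <;> simp_all [Ne.symm]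

theorem pf3 (x y z : Fin n) {p : ℕ} (hp : p < 6) : pf (s.X x y z) (27 + p) =
    s.T - (s.co (lab x y z (pla p 0)) 0 + s.co (lab x y z (pla p 1)) 1 +
      s.co (lab x y z (pla p 2)) 2) := by
  rw [pf_plc _ hp, X9, X_lab s x y z (pla_lt p hp 0 (by omega)) (by omega),
    X_lab s x y z (pla_lt p hp 1 (by omega)) (by omega),
    X_lab s x y z (pla_lt p hp 2 (by omega)) (by omega)]

theorem rok_iff (x y z : Fin n) (p : ℕ) : rok (tt (s.ty x) (s.ty y) (s.ty z)) p = true ↔
    ∀ c < 3, s.ty (lab x y z (pla p c)) < 4 ∧ pre (s.ty (lab x y z (pla p c))) c = true := by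
  unfold rok
  rw [allB_iff]
  simp only [Bool.and_eq_true, decide_eq_true_eq, tt_lab]

theorem pla_ne : ∀ p < 6, pla p 0 ≠ pla p 1 ∧ pla p 0 ≠ pla p 2 ∧ pla p 1 ≠ pla p 2 := by
  decide +kernel

theorem ned_testBit (x y z f : ℕ) : (ned x y z).testBit f = true ↔
    ((f < 9 ∧ (msk x y).testBit f = true) ∨
      (9 ≤ f ∧ f < 18 ∧ (msk x z).testBit (f - 9) = true) ∨
      (18 ≤ f ∧ f < 27 ∧ (msk y z).testBit (f - 18) = true)) := by
  unfold ned
  rw [Nat.testBit_or, Nat.testBit_or, Nat.testBit_shiftLeft, Nat.testBit_shiftLeft,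
    Bool.or_eq_true, Bool.or_eq_true, Bool.and_eq_true, Bool.and_eq_true, decide_eq_true_eq,
    decide_eq_true_eq]
  constructor
  · rintro ((h | ⟨h1, h2⟩) | ⟨h1, h2⟩)
    · left
      refine ⟨?_, h⟩
      by_contra h3
      rw [msk_testBit_ge _ _ f (by omega)] at h
      exact absurd h (by decide)
    · right; left
      refine ⟨h1, ?_, h2⟩
      by_contra h3
      rw [msk_testBit_ge _ _ (f - 9) (by omega)] at h2
      exact absurd h2 (by decide)
    · right; right
      refine ⟨h1, ?_, h2⟩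
      by_contra h3
      rw [msk_testBit_ge _ _ (f - 18) (by omega)] at h2
      exact absurd h2 (by decide)
  · rintro (⟨h1, h2⟩ | ⟨h1, _, h2⟩ | ⟨h1, _, h2⟩)
    · exact Or.inl (Or.inl h2)
    · exact Or.inl (Or.inr ⟨h1, h2⟩)
    · exact Or.inr ⟨h1, h2⟩

theorem alw_ne {x y z : Fin n} (hxy : x ≠ y) (hxz : x ≠ z) (hyz : y ≠ z) {f : ℕ}
    (h : alw (s.ty x) (s.ty y) (s.ty z) f = true) : pf (s.X x y z) f ≠ 0 := by
  unfold alw at h
  rw [Bool.or_eq_true, Bool.and_eq_true, Bool.and_eq_true, decide_eq_true_eq, decide_eq_true_eq,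
    ned_testBit] at h
  rcases h with (⟨h1, h2⟩ | ⟨h1, h3, h2⟩ | ⟨h1, h3, h2⟩) | ⟨⟨h1, h2⟩, h3⟩
  · have := s.pf0 x y z h1
    rw [zero_add] at this
    rw [this]
    exact s.val_ne hxy h1 h2
  · obtain ⟨i, rfl⟩ : ∃ i, f = 9 + i := ⟨f - 9, by omega⟩
    rw [show 9 + i - 9 = i by omega] at h2
    rw [s.pf1 x y z (by omega)]
    exact s.val_ne hxz (by omega) h2
  · obtain ⟨i, rfl⟩ : ∃ i, f = 18 + i := ⟨f - 18, by omega⟩
    rw [show 18 + i - 18 = i by omega] at h2
    rw [s.pf2 x y z (by omega)]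
    exact s.val_ne hyz (by omega) h2
  · obtain ⟨p, rfl⟩ : ∃ p, f = 27 + p := ⟨f - 27, by omega⟩
    rw [show 27 + p - 27 = p by omega, rok_iff] at h3
    have hp : p < 6 := by omega
    rw [s.pf3 x y z hp]
    obtain ⟨n1, n2, n3⟩ := pla_ne p hp
    have l0 := pla_lt p hp 0 (by omega)
    have l1 := pla_lt p hp 1 (by omega)
    have l2 := pla_lt p hp 2 (by omega)
    exact sub_ne_zero.2 (s.g3 _ _ _ (lab_ne hxy hxz hyz l0 l1 n1) (lab_ne hxy hxz hyz l0 l2 n2)
      (lab_ne hxy hxz hyz l1 l2 n3) (h3 0 (by omega)).1 (h3 1 (by omega)).1 (h3 2 (by omega)).1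
      (h3 0 (by omega)).2 (h3 1 (by omega)).2 (h3 2 (by omega)).2).symm

theorem co_M {l : Fin n} (h4 : 4 ≤ s.ty l) {c : ℕ} (hc : c < 3) (hp : pre (s.ty l) c = true) :
    s.co l c = s.T := by
  have h7 := s.ty_lt l
  have hs := s.sm l
  have a0 := s.ab l 0 (by omega)
  have a1 := s.ab l 1 (by omega)
  have a2 := s.ab l 2 (by omega)
  rcases (by omega : s.ty l = 4 ∨ s.ty l = 5 ∨ s.ty l = 6) with h | h | h <;>
    rw [h] at hp a0 a1 a2 <;> interval_cases c
  · rw [a1 (by decide), a2 (by decide)] at hs; linarith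
  · exact absurd hp (by decide)
  · exact absurd hp (by decide)
  · exact absurd hp (by decide)
  · rw [a0 (by decide), a2 (by decide)] at hs; linarith
  · exact absurd hp (by decide)
  · exact absurd hp (by decide)
  · exact absurd hp (by decide)
  · rw [a0 (by decide), a1 (by decide)] at hs; linarith

theorem good_lt {p q r : Fin n} (h : s.good p q r) : s.ty p < 4 ∧ s.ty q < 4 ∧ s.ty r < 4 := by
  obtain ⟨h1, h2, h3, h4⟩ := h
  have n0 := s.nn p 0 (by omega)
  have n1 := s.nn q 1 (by omega)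
  have n2 := s.nn r 2 (by omega)
  refine ⟨?_, ?_, ?_⟩
  · by_contra h5
    have := s.co_M (by omega : 4 ≤ s.ty p) (by omega) h1
    linarith
  · by_contra h5
    have := s.co_M (by omega : 4 ≤ s.ty q) (by omega) h2
    linarith
  · by_contra h5
    have := s.co_M (by omega : 4 ≤ s.ty r) (by omega) h3
    linarith

theorem R_eq (x y z : Fin n) : s.R x y z = ∑ p ∈ range 6,
    s.gd (lab x y z (pla p 0)) (lab x y z (pla p 1)) (lab x y z (pla p 2)) := by
  simp only [sum_range_succ, sum_range_zero, zero_add]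
  rfl

theorem R_le {x y z : Fin n} {a b : ℕ} (hI : Inv a b (s.X x y z)) :
    s.R x y z ≤ Rn (tt (s.ty x) (s.ty y) (s.ty z)) b := by
  unfold Rn
  rw [R_eq, sumN_eq]
  refine sum_le_sum fun p hp => ?_
  rw [mem_range] at hp
  unfold gd
  split_ifs with h1 h2 h2
  · exact le_rfl
  · exfalso
    apply h2
    rw [Bool.and_eq_true, rok_iff]
    obtain ⟨t1, t2, t3⟩ := s.good_lt h1
    constructor
    · intro c hc
      interval_cases c
      · exact ⟨t1, h1.1⟩
      · exact ⟨t2, h1.2.1⟩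
      · exact ⟨t3, h1.2.2.1⟩
    · rw [Bool.not_eq_true']
      by_contra h3
      rw [Bool.not_eq_false] at h3
      have h4 := hI.n _ h3
      rw [s.pf3 x y z hp] at h4
      have h5 := h1.2.2.2
      linarith
  · exact Nat.zero_le _
  · exact le_rfl

theorem Gf_mono (x y z xy xz yz yx zx zy : ℕ) {R R' : ℕ} (h : R ≤ R') :
    Gf x y z xy xz yz yx zx zy R' ≤ Gf x y z xy xz yz yx zx zy R := by
  unfold Gf
  have h1 : SS * (R : ℤ) ≤ SS * (R' : ℤ) :=
    mul_le_mul_of_nonneg_left (by exact_mod_cast h) (by unfold SS; norm_num)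
  linarith

theorem okL_sound {x y z : Fin n} (hxy : x ≠ y) (hxz : x ≠ z) (hyz : y ≠ z) {a b : ℕ}
    (hI : Inv a b (s.X x y z)) (h : okL (s.ty x) (s.ty y) (s.ty z) a b = true) :
    0 ≤ s.F x y z := by
  unfold okL at h
  simp only [force_eq, Bool.and_eq_true, decide_eq_true_eq] at h
  obtain ⟨h1, h2⟩ := h
  have hn : ∀ f, (ned (s.ty x) (s.ty y) (s.ty z)).testBit f = true →
      (a ||| b).testBit f = true := by
    intro f hf
    rw [← h1, Nat.testBit_and, Bool.and_eq_true] at hf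
    exact hf.1
  have e1 : a &&& msk (s.ty x) (s.ty y) = s.code x y := by
    have := s.code_eq (q := x) (l := y) (a := a) (b := b) (o := 0)
      (fun i hi hm => hn _ ((ned_testBit _ _ _ _).2 (Or.inl ⟨by omega, by rwa [zero_add]⟩)))
      (fun i hi hm => by rw [← s.pf0 x y z hi]; exact hI.p _ hm)
      (fun i hi hm => by rw [← s.pf0 x y z hi]; exact hI.n _ hm)
    rwa [Nat.shiftRight_zero] at this
  have e2 : (a >>> 9) &&& msk (s.ty x) (s.ty z) = s.code x z :=
    s.code_eq (q := x) (l := z) (a := a) (b := b) (o := 9)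
      (fun i hi hm => hn _ ((ned_testBit _ _ _ _).2 (Or.inr (Or.inl ⟨by omega, by omega,
        by rwa [show 9 + i - 9 = i by omega]⟩))))
      (fun i hi hm => by rw [← s.pf1 x y z hi]; exact hI.p _ hm)
      (fun i hi hm => by rw [← s.pf1 x y z hi]; exact hI.n _ hm)
  have e3 : (a >>> 18) &&& msk (s.ty y) (s.ty z) = s.code y z :=
    s.code_eq (q := y) (l := z) (a := a) (b := b) (o := 18)
      (fun i hi hm => hn _ ((ned_testBit _ _ _ _).2 (Or.inr (Or.inr ⟨by omega, by omega,
        by rwa [show 18 + i - 18 = i by omega]⟩))))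
      (fun i hi hm => by rw [← s.pf2 x y z hi]; exact hI.p _ hm)
      (fun i hi hm => by rw [← s.pf2 x y z hi]; exact hI.n _ hm)
  rw [e1, e2, e3, s.rvc_code hxy, s.rvc_code hxz, s.rvc_code hyz] at h2
  exact h2.trans (Gf_mono _ _ _ _ _ _ _ _ _ (s.R_le hI))

theorem Kf_comm (a f g : ℕ) : Kf a f g = Kf a g f := by
  unfold Kf
  rw [sumZ_eq, sumZ_eq]
  exact sum_congr rfl fun j _ => mul_comm _ _

theorem Hf_comm (x y z xy xz yz zy : ℕ) : Hf x y z xy xz yz zy = Hf x z y xz xy zy yz := by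
  unfold Hf
  rw [Kf_comm, sumZ_eq, sumZ_eq]
  congr 1
  exact sum_congr rfl fun j _ => by rw [add_comm (cv j y yz)]

theorem R_swap1 (x y z : Fin n) : s.R x y z = s.R y x z := by
  unfold R; ring

theorem R_swap2 (x y z : Fin n) : s.R x y z = s.R x z y := by
  unfold R; ring

theorem F_swap1 (x y z : Fin n) : s.F x y z = s.F y x z := by
  unfold F Gf
  rw [s.R_swap1 x y z, Hf_comm (s.ty z) (s.ty x) (s.ty y)]
  ring

theorem F_swap2 (x y z : Fin n) : s.F x y z = s.F x z y := by
  unfold F Gf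
  rw [s.R_swap2 x y z, Hf_comm (s.ty x) (s.ty y) (s.ty z)]
  ring

/-- the order of labels -/
def rel (x y : Fin n) : Prop :=
  s.ty x < s.ty y ∨ (s.ty x = s.ty y ∧ (4 ≤ s.ty x ∨ s.co x (fpc (s.ty x)) < s.co y (fpc (s.ty x))))

theorem fpc_spec : ∀ t < 7, fpc t < 3 ∧ pre t (fpc t) = true := by
  decide +kernel

theorem rel_total {x y : Fin n} (h : x ≠ y) : s.rel x y ∨ s.rel y x := by
  unfold rel
  rcases lt_trichotomy (s.ty x) (s.ty y) with h1 | h1 | h1
  · exact Or.inl (Or.inl h1)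
  · rw [← h1]
    by_cases h4 : 4 ≤ s.ty x
    · exact Or.inl (Or.inr ⟨rfl, Or.inl h4⟩)
    · obtain ⟨f1, f2⟩ := fpc_spec (s.ty x) (s.ty_lt x)
      rcases lt_or_gt_of_ne (s.g1 x y h (by omega) (by omega) _ f1 f2 (h1 ▸ f2)) with h5 | h5
      · exact Or.inl (Or.inr ⟨rfl, Or.inr h5⟩)
      · exact Or.inr (Or.inr ⟨rfl, Or.inr h5⟩)
  · exact Or.inr (Or.inl h1)

theorem F_nonneg_sorted {x y z : Fin n} (hxy : x ≠ y) (hxz : x ≠ z) (hyz : y ≠ z)
    (h1 : s.rel x y) (h2 : s.rel y z) : 0 ≤ s.F x y z := by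
  have txy : s.ty x ≤ s.ty y := by rcases h1 with h | h <;> omega
  have tyz : s.ty y ≤ s.ty z := by rcases h2 with h | h <;> omega
  have hc := all_chk (s.ty_lt z) txy tyz
  have hI : Inv 0 (ini (s.ty x) (s.ty y) (s.ty z)) (s.X x y z) := by
    constructor
    · intro f hf
      simp at hf
    · intro f hf
      unfold ini at hf
      rw [Nat.testBit_or, Bool.or_eq_true] at hf
      rcases hf with hf | hf
      · by_cases h3 : s.ty x = s.ty y ∧ s.ty x < 4
        · rw [if_pos h3, Nat.testBit_two_pow, decide_eq_true_eq] at hf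
          have h4 : s.co x (fpc (s.ty x)) < s.co y (fpc (s.ty x)) := by
            rcases h1 with h | ⟨_, h | h⟩
            · omega
            · omega
            · exact h
          have h5 := (fpc_spec (s.ty x) (s.ty_lt x)).1
          have h6 := s.pf0 x y z (by omega : 4 * fpc (s.ty x) < 9)
          rw [zero_add, hf] at h6
          rw [h6]
          unfold val
          rw [if_pos (by omega), show f / 3 = fpc (s.ty x) by omega,
            show f % 3 = fpc (s.ty x) by omega]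
          linarith
        · rw [if_neg h3] at hf
          simp at hf
      · by_cases h3 : s.ty y = s.ty z ∧ s.ty y < 4
        · rw [if_pos h3, Nat.testBit_two_pow, decide_eq_true_eq] at hf
          have h4 : s.co y (fpc (s.ty y)) < s.co z (fpc (s.ty y)) := by
            rcases h2 with h | ⟨_, h | h⟩
            · omega
            · omega
            · exact h
          have h5 := (fpc_spec (s.ty y) (s.ty_lt y)).1
          have h6 := s.pf2 x y z (by omega : 4 * fpc (s.ty y) < 9)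
          rw [hf] at h6
          rw [h6]
          unfold val
          rw [if_pos (by omega), show (4 * fpc (s.ty y)) / 3 = fpc (s.ty y) by omega,
            show (4 * fpc (s.ty y)) % 3 = fpc (s.ty y) by omega]
          linarith
        · rw [if_neg h3] at hf
          simp at hf
  obtain ⟨a', b', hI', hok⟩ := chk_sound (s.bas x y z) (fun f hf => s.alw_ne hxy hxz hyz hf) _ _ _
    hc hI
  exact s.okL_sound hxy hxz hyz hI' hok

/-- the inequality for three different labels -/
theorem F_nonneg {x y z : Fin n} (hxy : x ≠ y) (hxz : x ≠ z) (hyz : y ≠ z) : 0 ≤ s.F x y z := by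
  rcases s.rel_total hxy with a | a <;> rcases s.rel_total hxz with b | b <;>
    rcases s.rel_total hyz with c | c
  · exact s.F_nonneg_sorted hxy hxz hyz a c
  · rw [s.F_swap2]
    exact s.F_nonneg_sorted hxz hxy hyz.symm b c
  · exact s.F_nonneg_sorted hxy hxz hyz a c
  · rw [s.F_swap2, s.F_swap1]
    exact s.F_nonneg_sorted hxz.symm hyz.symm hxy b a
  · rw [s.F_swap1]
    exact s.F_nonneg_sorted hxy.symm hyz hxz a b
  · rw [s.F_swap1]
    exact s.F_nonneg_sorted hxy.symm hyz hxz a b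
  · rw [s.F_swap1, s.F_swap2]
    exact s.F_nonneg_sorted hyz hxy.symm hxz.symm c b
  · rw [s.F_swap2, s.F_swap1, s.F_swap2]
    exact s.F_nonneg_sorted hyz.symm hxz.symm hxy.symm c a

end Sys

end Pool.Agent.BSub.KK
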