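import Pool.Agent.Lib.MP_79bff1_ag_K.KBase

/-!
# MP_79bff1_ag: soundness of the checker
-/

set_option autoImplicit false

namespace Pool.Agent.BSub.KK

open Finset

/-- the value of a form -/
noncomputable def pf (X : ℕ → ℝ) (f : ℕ) : ℝ := ∑ k ∈ range 10, (cf f k : ℝ) * X k

theorem pf_pos (X : ℕ → ℝ) {g : ℕ} (hg : g < 10) : pf X (33 + g) = X g := by
  unfold pf
  have h : ∀ k ∈ range 10, (cf (33 + g) k : ℝ) * X k = if k = g then X k else 0 := by
    intro k hk
    rw [cf_pos g hg k (mem_range.1 hk)]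
    split_ifs <;> simp
  rw [sum_congr rfl h, sum_ite_eq' (range 10) g X, if_pos (mem_range.2 hg)]

theorem pf_pair (X : ℕ → ℝ) {P i : ℕ} (hP : P < 3) (hi : i < 9) : pf X (9 * P + i) =
    if i % 4 = 0 then X (3 * (P / 2) + i / 3) - X (3 * ((P + 3) / 2) + i % 3)
      else X (3 * (P / 2) + i / 3) + X (3 * ((P + 3) / 2) + i % 3) - X 9 := by
  unfold pf
  have h1 : 3 * (P / 2) + i / 3 ∈ range 10 := mem_range.2 (by omega)
  have h2 : 3 * ((P + 3) / 2) + i % 3 ∈ range 10 := mem_range.2 (by omega)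
  have h3 : 9 ∈ range 10 := mem_range.2 (by omega)
  split_ifs with h4
  · have h : ∀ k ∈ range 10, (cf (9 * P + i) k : ℝ) * X k =
        (if k = 3 * (P / 2) + i / 3 then X k else 0) -
          (if k = 3 * ((P + 3) / 2) + i % 3 then X k else 0) := by
      intro k hk
      rw [cf_pair P hP i hi k (mem_range.1 hk), if_pos h4]
      push_cast
      split_ifs <;> ring
    rw [sum_congr rfl h, sum_sub_distrib, sum_ite_eq' (range 10) _ X,
      sum_ite_eq' (range 10) _ X, if_pos h1, if_pos h2]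
  · have h : ∀ k ∈ range 10, (cf (9 * P + i) k : ℝ) * X k =
        (if k = 3 * (P / 2) + i / 3 then X k else 0) +
          (if k = 3 * ((P + 3) / 2) + i % 3 then X k else 0) - (if k = 9 then X k else 0) := by
      intro k hk
      rw [cf_pair P hP i hi k (mem_range.1 hk), if_neg h4]
      push_cast
      split_ifs <;> ring
    rw [sum_congr rfl h, sum_sub_distrib, sum_add_distrib, sum_ite_eq' (range 10) _ X,
      sum_ite_eq' (range 10) _ X, sum_ite_eq' (range 10) _ X, if_pos h1, if_pos h2, if_pos h3]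

theorem cf_plc : ∀ p < 6, ∀ k < 10, cf (27 + p) k =
    (if k = 9 then 1 else 0) - ((if k = 3 * pla p 0 + 0 then 1 else 0) +
      (if k = 3 * pla p 1 + 1 then 1 else 0) + (if k = 3 * pla p 2 + 2 then 1 else 0)) := by
  decide +kernel

theorem pla_lt : ∀ p < 6, ∀ c < 3, pla p c < 3 := by
  decide +kernel

theorem pf_plc (X : ℕ → ℝ) {p : ℕ} (hp : p < 6) : pf X (27 + p) =
    X 9 - (X (3 * pla p 0 + 0) + X (3 * pla p 1 + 1) + X (3 * pla p 2 + 2)) := by
  unfold pf
  have h : ∀ k ∈ range 10, (cf (27 + p) k : ℝ) * X k =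
      (if k = 9 then X k else 0) - ((if k = 3 * pla p 0 + 0 then X k else 0) +
      (if k = 3 * pla p 1 + 1 then X k else 0) + (if k = 3 * pla p 2 + 2 then X k else 0)) := by
    intro k hk
    rw [cf_plc p hp k (mem_range.1 hk)]
    push_cast
    split_ifs <;> ring
  have h0 := pla_lt p hp 0 (by omega)
  have h1 := pla_lt p hp 1 (by omega)
  have h2 := pla_lt p hp 2 (by omega)
  rw [sum_congr rfl h, sum_sub_distrib, sum_add_distrib, sum_add_distrib,
    sum_ite_eq' (range 10) _ X, sum_ite_eq' (range 10) _ X, sum_ite_eq' (range 10) _ X,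
    sum_ite_eq' (range 10) _ X, if_pos (mem_range.2 (by omega)), if_pos (mem_range.2 (by omega)),
    if_pos (mem_range.2 (by omega)), if_pos (mem_range.2 (by omega))]

/-- the general properties of the coordinates of three labels with types `t 0, t 1, t 2` -/
structure Bas (t : ℕ → ℕ) (X : ℕ → ℝ) : Prop where
  T : 0 < X 9
  nn : ∀ k < 9, 0 ≤ X k
  ab : ∀ l < 3, ∀ c < 3, pre (t l) c = false → X (3 * l + c) = 0
  sm : ∀ l < 3, X (3 * l) + X (3 * l + 1) + X (3 * l + 2) = X 9

/-- `a` consists of positive forms and `b` of negative forms -/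
structure Inv (a b : ℕ) (X : ℕ → ℝ) : Prop where
  p : ∀ f, a.testBit f = true → 0 < pf X f
  n : ∀ f, b.testBit f = true → pf X f < 0

theorem sg_nonneg {a b : ℕ} {X : ℕ → ℝ} {t : ℕ → ℕ} (hI : Inv a b X) (hB : Bas t X) (f : ℕ) :
    0 ≤ (sg a b f : ℝ) * pf X f := by
  unfold sg
  split_ifs with h1 h2 h3 h4
  · obtain ⟨g, rfl⟩ : ∃ g, f = 33 + g := ⟨f - 33, by omega⟩
    rw [pf_pos X (by omega)]
    push_cast
    rw [one_mul]
    rcases Nat.lt_or_ge g 9 with h | h
    · exact hB.nn g h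
    · have : g = 9 := by omega
      rw [this]; exact hB.T.le
  · simp
  · have := hI.p f h3
    push_cast
    linarith
  · have := hI.n f h4
    push_cast
    linarith
  · simp

theorem sg_pos {a b : ℕ} {X : ℕ → ℝ} (hI : Inv a b X) {f : ℕ} (hf : f < 33)
    (h : (a ||| b).testBit f = true) : 0 < (sg a b f : ℝ) * pf X f := by
  unfold sg
  rw [if_neg (by omega)]
  rw [Nat.testBit_or, Bool.or_eq_true] at h
  by_cases h1 : a.testBit f = true
  · have := hI.p f h1
    rw [if_pos h1]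
    push_cast
    linarith
  · have h2 : b.testBit f = true := by tauto
    have := hI.n f h2
    rw [if_neg h1, if_pos h2]
    push_cast
    linarith

theorem sumV_succ (a b k n c : ℕ) (hc : c ≠ 0) : sumV a b k (n + 1) c =
    sg a b (c % 64 - 1) * cf (c % 64 - 1) k + sumV a b k n (c / 64) := by
  have h : sumV a b k (n + 1) c = if c = 0 then 0 else
    sg a b (c % 64 - 1) * cf (c % 64 - 1) k + sumV a b k n (c / 64) := rfl
  rw [h, if_neg hc]

theorem sumV_zero (a b k n : ℕ) : sumV a b k n 0 = 0 := by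
  cases n with
  | zero => rfl
  | succ n => rfl

/-- the value of the signed sum of forms coded by `c` -/
noncomputable def tot (X : ℕ → ℝ) (a b n c : ℕ) : ℝ :=
  ∑ k ∈ range 10, (sumV a b k n c : ℝ) * X k

theorem tot_succ (X : ℕ → ℝ) (a b n c : ℕ) (hc : c ≠ 0) : tot X a b (n + 1) c =
    (sg a b (c % 64 - 1) : ℝ) * pf X (c % 64 - 1) + tot X a b n (c / 64) := by
  unfold tot pf
  rw [mul_sum, ← sum_add_distrib]
  refine sum_congr rfl fun k _ => ?_
  rw [sumV_succ a b k n c hc]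
  push_cast
  ring

theorem tot_nonneg {a b : ℕ} {X : ℕ → ℝ} {t : ℕ → ℕ} (hI : Inv a b X) (hB : Bas t X) (n : ℕ) :
    ∀ c, 0 ≤ tot X a b n c := by
  induction n with
  | zero =>
    intro c
    unfold tot
    have : ∀ k, sumV a b k 0 c = 0 := fun k => rfl
    simp [this]
  | succ n ih =>
    intro c
    by_cases hc : c = 0
    · subst hc
      unfold tot
      simp [sumV_zero]
    · rw [tot_succ X a b n c hc]
      exact add_nonneg (sg_nonneg hI hB _) (ih _)

theorem badL_sound {a b c : ℕ} {X : ℕ → ℝ} {t : ℕ → ℕ} (hI : Inv a b X) (hB : Bas t X)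
    (h : badL t a b c = true) : False := by
  unfold badL at h
  simp only [Bool.and_eq_true, decide_eq_true_eq, allB_iff, Bool.or_eq_true,
    Bool.not_eq_true'] at h
  obtain ⟨⟨⟨⟨h1, h2⟩, h3⟩, h4⟩, h5⟩ := h
  have hpos : 0 < tot X a b 16 c := by
    rw [tot_succ X a b 15 c h1]
    exact add_pos_of_pos_of_nonneg (sg_pos hI h3 h2) (tot_nonneg hI hB 15 _)
  have key : ∀ l < 3, ∀ k < 3, (sumV a b (3 * l + k) 16 c : ℝ) * X (3 * l + k) =
      (sumV a b (3 * l + fpc (t l)) 16 c : ℝ) * X (3 * l + k) := by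
    intro l hl k hk
    rcases h5 l hl k hk with h6 | h6
    · rw [hB.ab l hl k hk h6, mul_zero, mul_zero]
    · rw [h6]
  have hz : tot X a b 16 c = 0 := by
    unfold tot
    rw [sum_range_succ, sum_range_succ, sum_range_succ, sum_range_succ, sum_range_succ,
      sum_range_succ, sum_range_succ, sum_range_succ, sum_range_succ, sum_range_succ, sum_range_zero]
    have e0 : (sumV a b 0 16 c : ℝ) * X 0 = (sumV a b (fpc (t 0)) 16 c : ℝ) * X 0 := by
      have := key 0 (by omega) 0 (by omega)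
      rwa [show 3 * 0 + 0 = 0 from rfl, show 3 * 0 + fpc (t 0) = fpc (t 0) by omega] at this
    have e1 : (sumV a b 1 16 c : ℝ) * X 1 = (sumV a b (fpc (t 0)) 16 c : ℝ) * X 1 := by
      have := key 0 (by omega) 1 (by omega)
      rwa [show 3 * 0 + 1 = 1 from rfl, show 3 * 0 + fpc (t 0) = fpc (t 0) by omega] at this
    have e2 : (sumV a b 2 16 c : ℝ) * X 2 = (sumV a b (fpc (t 0)) 16 c : ℝ) * X 2 := by
      have := key 0 (by omega) 2 (by omega)
      rwa [show 3 * 0 + 2 = 2 from rfl, show 3 * 0 + fpc (t 0) = fpc (t 0) by omega] at this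
    have e3 : (sumV a b 3 16 c : ℝ) * X 3 = (sumV a b (3 + fpc (t 1)) 16 c : ℝ) * X 3 :=
      key 1 (by omega) 0 (by omega)
    have e4 : (sumV a b 4 16 c : ℝ) * X 4 = (sumV a b (3 + fpc (t 1)) 16 c : ℝ) * X 4 :=
      key 1 (by omega) 1 (by omega)
    have e5 : (sumV a b 5 16 c : ℝ) * X 5 = (sumV a b (3 + fpc (t 1)) 16 c : ℝ) * X 5 :=
      key 1 (by omega) 2 (by omega)
    have e6 : (sumV a b 6 16 c : ℝ) * X 6 = (sumV a b (6 + fpc (t 2)) 16 c : ℝ) * X 6 :=
      key 2 (by omega) 0 (by omega)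
    have e7 : (sumV a b 7 16 c : ℝ) * X 7 = (sumV a b (6 + fpc (t 2)) 16 c : ℝ) * X 7 :=
      key 2 (by omega) 1 (by omega)
    have e8 : (sumV a b 8 16 c : ℝ) * X 8 = (sumV a b (6 + fpc (t 2)) 16 c : ℝ) * X 8 :=
      key 2 (by omega) 2 (by omega)
    have s0 : X 0 + X 1 + X 2 = X 9 := hB.sm 0 (by omega)
    have s1 : X 3 + X 4 + X 5 = X 9 := hB.sm 1 (by omega)
    have s2 : X 6 + X 7 + X 8 = X 9 := hB.sm 2 (by omega)
    have h4' : (sumV a b (fpc (t 0)) 16 c : ℝ) + sumV a b (3 + fpc (t 1)) 16 c +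
      sumV a b (6 + fpc (t 2)) 16 c + sumV a b 9 16 c = 0 := by exact_mod_cast h4
    rw [e0, e1, e2, e3, e4, e5, e6, e7, e8]
    linear_combination (sumV a b (fpc (t 0)) 16 c : ℝ) * s0 +
      (sumV a b (3 + fpc (t 1)) 16 c : ℝ) * s1 + (sumV a b (6 + fpc (t 2)) 16 c : ℝ) * s2 +
      X 9 * h4'
  linarith

/-- soundness of the checker -/
theorem chk_sound {x y z : ℕ} {X : ℕ → ℝ} (hB : Bas (tt x y z) X) (hg : ∀ f, alw x y z f = true → pf X f ≠ 0) (T : Tr) :
    ∀ a b, chk x y z T a b = true → Inv a b X →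
      ∃ a' b', Inv a' b' X ∧ okL x y z a' b' = true := by
  induction T with
  | O => intro a b h hI; exact ⟨a, b, hI, h⟩
  | B c => intro a b h hI; exact (badL_sound hI hB h).elim
  | N f T1 T2 ih1 ih2 =>
    intro a b h hI
    have h1 : chk x y z (Tr.N f T1 T2) a b = (alw x y z f &&
      (force (a ||| 2 ^ f) fun a' => chk x y z T1 a' b) &&
      (force (b ||| 2 ^ f) fun b' => chk x y z T2 a b')) := rfl
    rw [h1, force_eq, force_eq, Bool.and_eq_true, Bool.and_eq_true] at h
    obtain ⟨⟨h2, h3⟩, h4⟩ := h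
    rcases lt_or_gt_of_ne (hg f h2) with h5 | h5
    · refine ih2 a _ h4 ⟨hI.p, fun g hgb => ?_⟩
      rw [Nat.testBit_or, Bool.or_eq_true, Nat.testBit_two_pow, decide_eq_true_eq] at hgb
      rcases hgb with h6 | h6
      · exact hI.n g h6
      · rw [← h6]; exact h5
    · refine ih1 _ b h3 ⟨fun g hgb => ?_, hI.n⟩
      rw [Nat.testBit_or, Bool.or_eq_true, Nat.testBit_two_pow, decide_eq_true_eq] at hgb
      rcases hgb with h6 | h6
      · exact hI.p g h6
      · rw [← h6]; exact h5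

end Pool.Agent.BSub.KK
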