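import Pool.Agent.Lib.MP_79bff1_ag_K.KPt

/-!
# MP_79bff1_ag: summation over all triples of labels
-/

set_option autoImplicit false

namespace Pool.Agent.BSub.KK

open Finset

/-- bound for the contribution of one root -/
def hb : ℤ := 7818182656

/-- bound for the local expression -/
def C0 : ℤ := 6 * SS + 3 * hb

theorem Lv_abs (a j f : ℕ) : |Lv a j f| ≤ 32768 := by
  have h := dig_lt LTB 16 ((8 * a + j) * 64 + f)
  norm_num at h
  unfold Lv
  rw [abs_le]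
  constructor
  · have : (0 : ℤ) ≤ (dig LTB 16 ((8 * a + j) * 64 + f) : ℤ) := by positivity
    linarith
  · have : (dig LTB 16 ((8 * a + j) * 64 + f) : ℤ) < 65536 := by exact_mod_cast h
    linarith

theorem cv_abs (i a f : ℕ) : |cv i a f| ≤ 8388608 := by
  have h := dig_lt CTB 24 ((64 * a + f) * 3 + i)
  norm_num at h
  unfold cv
  rw [abs_le]
  constructor
  · have : (0 : ℤ) ≤ (dig CTB 24 ((64 * a + f) * 3 + i) : ℤ) := by positivity
    linarith
  · have : (dig CTB 24 ((64 * a + f) * 3 + i) : ℤ) < 16777216 := by exact_mod_cast h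
    linarith

theorem dl_abs (i a : ℕ) : |dl i a| ≤ 6 := by
  unfold dl
  split_ifs <;> norm_num

theorem Hf_le (x y z xy xz yz zy : ℕ) : Hf x y z xy xz yz zy ≤ hb := by
  unfold Hf Kf
  rw [sumZ_eq, sumZ_eq]
  have h1 : ∑ j ∈ range 7, Lv x j xy * Lv x j xz ≤ ∑ _j ∈ range 7, (1073741824 : ℤ) := by
    refine sum_le_sum fun j _ => ?_
    refine (le_abs_self _).trans ?_
    rw [abs_mul]
    exact (mul_le_mul (Lv_abs x j xy) (Lv_abs x j xz) (abs_nonneg _) (by norm_num)).trans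
      (by norm_num)
  have h2 : ∑ i ∈ range 3, (cv i y yz + cv i z zy) * dl i x ≤ ∑ _i ∈ range 3, (100663296 : ℤ) := by
    refine sum_le_sum fun i _ => ?_
    refine (le_abs_self _).trans ?_
    rw [abs_mul]
    have h3 : |cv i y yz + cv i z zy| ≤ 16777216 :=
      (abs_add_le _ _).trans (by linarith [cv_abs i y yz, cv_abs i z zy])
    exact (mul_le_mul h3 (dl_abs i x) (abs_nonneg _) (by norm_num)).trans (by norm_num)
  rw [sum_const, card_range] at h1 h2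
  unfold hb
  norm_num at h1 h2
  linarith

namespace Sys

variable {n : ℕ} (s : Sys n)

/-- contribution of the root `x` -/
noncomputable def H (x y z : Fin n) : ℤ :=
  Hf (s.ty x) (s.ty y) (s.ty z) (s.fl x y) (s.fl x z) (s.fl y z) (s.fl z y)

theorem F_eq (x y z : Fin n) :
    s.F x y z = BB - SS * (s.R x y z : ℤ) - s.H x y z - s.H y x z - s.H z x y := rfl

theorem gd_le (x y z : Fin n) : s.gd x y z ≤ 1 := by
  unfold gd; split_ifs <;> omega

theorem F_ge (x y z : Fin n) : -C0 ≤ s.F x y z := by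
  rw [F_eq]
  have h1 : s.R x y z ≤ 6 := by
    unfold R
    have a1 := s.gd_le x y z
    have a2 := s.gd_le x z y
    have a3 := s.gd_le y x z
    have a4 := s.gd_le y z x
    have a5 := s.gd_le z x y
    have a6 := s.gd_le z y x
    omega
  have h2 : (s.R x y z : ℤ) ≤ 6 := by exact_mod_cast h1
  have h3 : s.H x y z ≤ hb := Hf_le _ _ _ _ _ _ _
  have h4 : s.H y x z ≤ hb := Hf_le _ _ _ _ _ _ _
  have h5 : s.H z x y ≤ hb := Hf_le _ _ _ _ _ _ _
  have h6 : SS * (s.R x y z : ℤ) ≤ SS * 6 :=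
    mul_le_mul_of_nonneg_left h2 (by unfold SS; norm_num)
  have h7 : (0 : ℤ) ≤ BB := by unfold BB; norm_num
  unfold C0
  linarith

/-- the number of good triples -/
noncomputable def N : ℕ := ∑ x, ∑ y, ∑ z, s.gd x y z

theorem sum_perm (f : Fin n → Fin n → Fin n → ℤ) :
    (∑ x, ∑ y, ∑ z, f x z y = ∑ x, ∑ y, ∑ z, f x y z) ∧
    (∑ x, ∑ y, ∑ z, f y x z = ∑ x, ∑ y, ∑ z, f x y z) ∧
    (∑ x, ∑ y, ∑ z, f y z x = ∑ x, ∑ y, ∑ z, f x y z) ∧
    (∑ x, ∑ y, ∑ z, f z x y = ∑ x, ∑ y, ∑ z, f x y z) ∧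
    (∑ x, ∑ y, ∑ z, f z y x = ∑ x, ∑ y, ∑ z, f x y z) := by
  have h1 : ∀ g : Fin n → Fin n → Fin n → ℤ,
      ∑ x, ∑ y, ∑ z, g x z y = ∑ x, ∑ y, ∑ z, g x y z := fun g =>
    sum_congr rfl fun x _ => sum_comm
  have h2 : ∀ g : Fin n → Fin n → Fin n → ℤ,
      ∑ x, ∑ y, ∑ z, g y x z = ∑ x, ∑ y, ∑ z, g x y z := fun g => sum_comm
  exact ⟨h1 f, h2 f, (h2 fun x y z => f x z y).trans (h1 f),
    (h1 fun x y z => f y x z).trans (h2 f),
    (h1 fun x y z => f y z x).trans ((h2 fun x y z => f x z y).trans (h1 f))⟩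

theorem sum_R : ∑ x, ∑ y, ∑ z, (s.R x y z : ℤ) = 6 * s.N := by
  obtain ⟨e1, e2, e3, e4, e5⟩ := sum_perm fun x y z => (s.gd x y z : ℤ)
  unfold R N
  push_cast
  simp only [sum_add_distrib]
  rw [e1, e2, e3, e4, e5]
  ring

theorem sum_F : ∑ x, ∑ y, ∑ z, s.F x y z =
    BB * (n : ℤ) ^ 3 - 6 * SS * s.N - 3 * ∑ x, ∑ y, ∑ z, s.H x y z := by
  obtain ⟨-, e2, -, e4, -⟩ := sum_perm s.H
  have h : ∑ x, ∑ y, ∑ z, s.F x y z = ∑ x : Fin n, ∑ y : Fin n, ∑ z : Fin n, BB -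
      SS * ∑ x, ∑ y, ∑ z, (s.R x y z : ℤ) - ∑ x, ∑ y, ∑ z, s.H x y z -
      ∑ x, ∑ y, ∑ z, s.H y x z - ∑ x, ∑ y, ∑ z, s.H z x y := by
    simp only [mul_sum, ← sum_sub_distrib]
    rfl
  rw [h, e2, e4, sum_R]
  simp only [sum_const, card_univ, Fintype.card_fin, nsmul_eq_mul]
  ring

theorem sum_H_nonneg (h0 : ∀ i < 3, ∑ l, dl i (s.ty l) = 0) :
    0 ≤ ∑ x, ∑ y, ∑ z, s.H x y z := by
  have h1 : ∀ x y z, s.H x y z = ∑ j ∈ range 7, Lv (s.ty x) j (s.fl x y) * Lv (s.ty x) j (s.fl x z)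
      + ∑ i ∈ range 3, (cv i (s.ty y) (s.fl y z) + cv i (s.ty z) (s.fl z y)) * dl i (s.ty x) := by
    intro x y z
    unfold H Hf Kf
    rw [sumZ_eq, sumZ_eq]
  simp only [h1, sum_add_distrib]
  have h2 : 0 ≤ ∑ x, ∑ y, ∑ z, ∑ j ∈ range 7,
      Lv (s.ty x) j (s.fl x y) * Lv (s.ty x) j (s.fl x z) := by
    refine sum_nonneg fun x _ => ?_
    have h3 : ∑ y, ∑ z, ∑ j ∈ range 7, Lv (s.ty x) j (s.fl x y) * Lv (s.ty x) j (s.fl x z) =
        ∑ j ∈ range 7, (∑ y, Lv (s.ty x) j (s.fl x y)) ^ 2 := by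
      have h4 : ∀ y, ∑ z, ∑ j ∈ range 7, Lv (s.ty x) j (s.fl x y) * Lv (s.ty x) j (s.fl x z) =
          ∑ j ∈ range 7, ∑ z, Lv (s.ty x) j (s.fl x y) * Lv (s.ty x) j (s.fl x z) :=
        fun y => sum_comm
      rw [sum_congr rfl fun y _ => h4 y, sum_comm]
      refine sum_congr rfl fun j _ => ?_
      rw [sq, sum_mul_sum]
    rw [h3]
    exact sum_nonneg fun j _ => sq_nonneg _
  have h5 : ∑ x, ∑ y, ∑ z, ∑ i ∈ range 3,
      (cv i (s.ty y) (s.fl y z) + cv i (s.ty z) (s.fl z y)) * dl i (s.ty x) = 0 := by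
    have h6 : ∀ x, ∑ y, ∑ z, ∑ i ∈ range 3,
        (cv i (s.ty y) (s.fl y z) + cv i (s.ty z) (s.fl z y)) * dl i (s.ty x) =
        ∑ i ∈ range 3, (∑ y, ∑ z, (cv i (s.ty y) (s.fl y z) + cv i (s.ty z) (s.fl z y))) *
          dl i (s.ty x) := by
      intro x
      have h7 : ∀ y, ∑ z, ∑ i ∈ range 3,
          (cv i (s.ty y) (s.fl y z) + cv i (s.ty z) (s.fl z y)) * dl i (s.ty x) =
          ∑ i ∈ range 3, ∑ z,
            (cv i (s.ty y) (s.fl y z) + cv i (s.ty z) (s.fl z y)) * dl i (s.ty x) :=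
        fun y => sum_comm
      rw [sum_congr rfl fun y _ => h7 y, sum_comm]
      refine sum_congr rfl fun i _ => ?_
      simp only [sum_mul]
    rw [sum_congr rfl fun x _ => h6 x, sum_comm]
    refine sum_eq_zero fun i hi => ?_
    rw [← mul_sum, h0 i (mem_range.1 hi), mul_zero]
  linarith

theorem main_int (h0 : ∀ i < 3, ∑ l, dl i (s.ty l) = 0) :
    6 * SS * (s.N : ℤ) ≤ BB * (n : ℤ) ^ 3 + 3 * C0 * (n : ℤ) ^ 2 := by
  have h1 := s.sum_F
  have h2 := s.sum_H_nonneg h0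
  have hC : (0 : ℤ) ≤ C0 := by unfold C0 SS hb; norm_num
  have h3 : -(3 * C0 * (n : ℤ) ^ 2) ≤ ∑ x, ∑ y, ∑ z, s.F x y z := by
    have h4 : ∀ x y z, -C0 * ((if x = y then 1 else 0) + (if x = z then 1 else 0) +
        (if y = z then 1 else 0)) ≤ s.F x y z := by
      intro x y z
      by_cases hxy : x = y
      · rw [if_pos hxy]
        refine le_trans ?_ (s.F_ge x y z)
        split_ifs <;> linarith
      · by_cases hxz : x = z
        · rw [if_pos hxz, if_neg hxy]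
          refine le_trans ?_ (s.F_ge x y z)
          split_ifs <;> linarith
        · by_cases hyz : y = z
          · rw [if_neg hxy, if_neg hxz, if_pos hyz]
            refine le_trans ?_ (s.F_ge x y z)
            linarith
          · rw [if_neg hxy, if_neg hxz, if_neg hyz]
            have := s.F_nonneg hxy hxz hyz
            linarith
    refine le_trans (le_of_eq ?_)
      (sum_le_sum fun x _ => sum_le_sum fun y _ => sum_le_sum fun z _ => h4 x y z)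
    simp only [← mul_sum, sum_add_distrib, sum_const, card_univ, Fintype.card_fin,
      sum_ite_eq, mem_univ, if_true, nsmul_eq_mul, mul_one]
    ring
  linarith

theorem main_real (h0 : ∀ i < 3, ∑ l, dl i (s.ty l) = 0) :
    (s.N : ℝ) ≤ 111 / 343 * (n : ℝ) ^ 3 + 473 * (n : ℝ) ^ 2 := by
  have h1 := s.main_int h0
  have h2 : (6 * SS * (s.N : ℤ) : ℝ) ≤ BB * (n : ℝ) ^ 3 + 3 * C0 * (n : ℝ) ^ 2 := by
    exact_mod_cast h1
  unfold C0 SS BB hb at h2
  norm_num at h2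
  have h3 : (0 : ℝ) ≤ (n : ℝ) ^ 3 := by positivity
  have h4 : (0 : ℝ) ≤ (n : ℝ) ^ 2 := by positivity
  nlinarith

end Sys

end Pool.Agent.BSub.KK
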