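import Pool.Agent.Lib.MP_79bff1_ag_K.KSound
import Pool.Agent.Lib.MP_79bff1_ag_K.KC0
import Pool.Agent.Lib.MP_79bff1_ag_K.KC1
import Pool.Agent.Lib.MP_79bff1_ag_K.KC2
import Pool.Agent.Lib.MP_79bff1_ag_K.KC3

/-!
# MP_79bff1_ag: systems of labels and the inequality for three different labels
-/

set_option autoImplicit false

namespace Pool.Agent.BSub.KK

open Finset

/-- the checks for all sorted triples of types -/
theorem all_chk {x y z : ℕ} (hz : z < 7) (hxy : x ≤ y) (hyz : y ≤ z) :
    chk x y z (tre (49 * x + 7 * y + z)) 0 (ini x y z) = true := by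
  rcases Nat.eq_zero_or_pos x with hx | hx
  · subst hx
    rcases Nat.eq_zero_or_pos y with hy | hy
    · subst hy
      rcases Nat.eq_zero_or_pos z with h0 | h0
      · subst h0; exact kc0
      · have h1 := (allB_iff 7 _).1 kc1 z hz
        rw [Bool.or_eq_true, Nat.beq_eq] at h1
        rcases h1 with h1 | h1
        · omega
        · simpa using h1
    · have h1 := (allB_iff 7 _).1 kc2 y (by omega)
      rw [Bool.or_eq_true, Nat.beq_eq] at h1
      rcases h1 with h1 | h1
      · omega
      · have h2 := (allB_iff 7 _).1 h1 z hz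
        rw [Bool.or_eq_true, Bool.not_eq_true'] at h2
        rcases h2 with h2 | h2
        · rw [Nat.ble_eq_true_of_le hyz] at h2
          exact absurd h2 (by decide)
        · simpa using h2
  · have h1 := (allB_iff 7 _).1 kc3 x (by omega)
    rw [Bool.or_eq_true, Nat.beq_eq] at h1
    rcases h1 with h1 | h1
    · omega
    · have h2 := (allB_iff 7 _).1 h1 y (by omega)
      rw [Bool.or_eq_true, Bool.not_eq_true'] at h2
      rcases h2 with h2 | h2
      · rw [Nat.ble_eq_true_of_le hxy] at h2
        exact absurd h2 (by decide)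
      · have h3 := (allB_iff 7 _).1 h2 z hz
        rw [Bool.or_eq_true, Bool.not_eq_true'] at h3
        rcases h3 with h3 | h3
        · rw [Nat.ble_eq_true_of_le hyz] at h3
          exact absurd h3 (by decide)
        · exact h3

/-- a system of labels in general position -/
structure Sys (n : ℕ) where
  /-- type of a label -/
  ty : Fin n → ℕ
  /-- coordinates of a label -/
  co : Fin n → ℕ → ℝ
  /-- sum of the coordinates of a label -/
  T : ℝ
  T_pos : 0 < T
  ty_lt : ∀ l, ty l < 7
  nn : ∀ l, ∀ c < 3, 0 ≤ co l c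
  ab : ∀ l, ∀ c < 3, pre (ty l) c = false → co l c = 0
  sm : ∀ l, co l 0 + co l 1 + co l 2 = T
  g1 : ∀ l m, l ≠ m → ty l < 4 → ty m < 4 → ∀ u < 3, pre (ty l) u = true → pre (ty m) u = true →
    co l u ≠ co m u
  g2 : ∀ l m, l ≠ m → ty l < 4 → ty m < 4 → ∀ u < 3, ∀ v < 3, u ≠ v → pre (ty l) u = true →
    pre (ty m) v = true → co l u + co m v ≠ T
  g3 : ∀ p q r, p ≠ q → p ≠ r → q ≠ r → ty p < 4 → ty q < 4 → ty r < 4 → pre (ty p) 0 = true →
    pre (ty q) 1 = true → pre (ty r) 2 = true → co p 0 + co q 1 + co r 2 ≠ T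

namespace Sys

variable {n : ℕ} (s : Sys n)

/-- value of the comparison number `i` of the labels `q`, `l` -/
noncomputable def val (q l : Fin n) (i : ℕ) : ℝ :=
  if i % 4 = 0 then s.co q (i / 3) - s.co l (i % 3) else s.co q (i / 3) + s.co l (i % 3) - s.T

open Classical in
/-- the code of two labels -/
noncomputable def code (q l : Fin n) : ℕ :=
  ofB 9 fun i => (msk (s.ty q) (s.ty l)).testBit i && decide (0 < s.val q l i)

/-- the flag of two labels -/
noncomputable def fl (q l : Fin n) : ℕ := ixf (s.ty q) (s.ty l) (s.code q l)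

/-- good triples -/
def good (p q r : Fin n) : Prop :=
  pre (s.ty p) 0 = true ∧ pre (s.ty q) 1 = true ∧ pre (s.ty r) 2 = true ∧
    s.co p 0 + s.co q 1 + s.co r 2 < s.T

open Classical in
/-- indicator of good triples -/
noncomputable def gd (p q r : Fin n) : ℕ := if s.good p q r then 1 else 0

/-- number of good orders of three labels -/
noncomputable def R (x y z : Fin n) : ℕ :=
  s.gd x y z + s.gd x z y + s.gd y x z + s.gd y z x + s.gd z x y + s.gd z y x

/-- the local expression -/
noncomputable def F (x y z : Fin n) : ℤ :=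
  Gf (s.ty x) (s.ty y) (s.ty z) (s.fl x y) (s.fl x z) (s.fl y z) (s.fl y x) (s.fl z x) (s.fl z y)
    (s.R x y z)

/-- the coordinates of three labels -/
noncomputable def X (x y z : Fin n) (k : ℕ) : ℝ :=
  if k < 3 then s.co x k else if k < 6 then s.co y (k - 3) else if k < 9 then s.co z (k - 6)
    else s.T

theorem val_ne {q l : Fin n} (h : q ≠ l) {i : ℕ} (hi : i < 9)
    (hm : (msk (s.ty q) (s.ty l)).testBit i = true) : s.val q l i ≠ 0 := by
  obtain ⟨h1, h2, h3, h4⟩ := msk_pre (s.ty_lt q) (s.ty_lt l) hi hm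
  unfold val
  split_ifs with h5
  · have h6 : i % 3 = i / 3 := by omega
    rw [h6] at h4 ⊢
    exact sub_ne_zero.2 (s.g1 q l h h1 h2 (i / 3) (by omega) h3 h4)
  · exact sub_ne_zero.2 (s.g2 q l h h1 h2 (i / 3) (by omega) (i % 3) (by omega) (by omega) h3 h4)

theorem code_eq {q l : Fin n} {a b o : ℕ}
    (hn : ∀ i < 9, (msk (s.ty q) (s.ty l)).testBit i = true → (a ||| b).testBit (o + i) = true)
    (ha : ∀ i < 9, a.testBit (o + i) = true → 0 < s.val q l i)
    (hb : ∀ i < 9, b.testBit (o + i) = true → s.val q l i < 0) :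
    (a >>> o) &&& msk (s.ty q) (s.ty l) = s.code q l := by
  classical
  refine Nat.eq_of_testBit_eq fun i => ?_
  unfold code
  rw [testBit_ofB, Nat.testBit_and, Nat.testBit_shiftRight]
  by_cases hi : i < 9
  · rw [decide_eq_true hi, Bool.true_and]
    by_cases hm : (msk (s.ty q) (s.ty l)).testBit i = true
    · rw [hm, Bool.and_true, Bool.true_and]
      have h1 := hn i hi hm
      rw [Nat.testBit_or, Bool.or_eq_true] at h1
      by_cases h2 : a.testBit (o + i) = true
      · rw [h2, decide_eq_true (ha i hi h2)]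
      · have h3 : b.testBit (o + i) = true := by tauto
        rw [decide_eq_false (not_lt.2 (hb i hi h3).le)]
        simpa using h2
    · rw [Bool.not_eq_true] at hm
      rw [hm, Bool.and_false, Bool.false_and]
  · rw [decide_eq_false hi, Bool.false_and, msk_testBit_ge _ _ i (by omega), Bool.and_false]

theorem rvc_code {q l : Fin n} (h : q ≠ l) :
    rvc (msk (s.ty l) (s.ty q)) (s.code q l) = s.code l q := by
  classical
  refine Nat.eq_of_testBit_eq fun i => ?_
  unfold rvc
  rw [testBit_ofB]
  conv_rhs => rw [code, testBit_ofB]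
  by_cases hi : i < 9
  · rw [decide_eq_true hi, Bool.true_and, Bool.true_and]
    by_cases hm : (msk (s.ty l) (s.ty q)).testBit i = true
    · rw [hm, Bool.true_and, Bool.true_and]
      have hs := msk_symm (s.ty q) (s.ty_lt q) (s.ty l) (s.ty_lt l) i hi
      rw [hm] at hs
      unfold code
      split_ifs with h4
      · have h5 : 3 * (i % 3) + i / 3 = i := by omega
        rw [h5] at hs
        rw [testBit_ofB, decide_eq_true hi, hs, Bool.true_and, Bool.true_and]
        have h6 := s.val_ne h hi hs
        have h7 : s.val l q i = - s.val q l i := by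
          unfold val
          rw [if_pos h4, if_pos h4, show i % 3 = i / 3 by omega]
          ring
        rw [h7]
        rcases lt_or_gt_of_ne h6 with h8 | h8
        · rw [decide_eq_false (not_lt.2 h8.le), decide_eq_true (by linarith)]
          rfl
        · rw [decide_eq_true h8, decide_eq_false (by linarith)]
          rfl
      · rw [testBit_ofB, decide_eq_true (by omega : 3 * (i % 3) + i / 3 < 9), hs, Bool.true_and,
          Bool.true_and]
        have h7 : s.val l q i = s.val q l (3 * (i % 3) + i / 3) := by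
          unfold val
          rw [if_neg h4, if_neg (by omega), show (3 * (i % 3) + i / 3) / 3 = i % 3 by omega,
            show (3 * (i % 3) + i / 3) % 3 = i / 3 by omega]
          ring
        rw [h7]
    · rw [Bool.not_eq_true] at hm
      rw [hm, Bool.false_and, Bool.false_and]
  · rw [decide_eq_false hi, Bool.false_and, Bool.false_and]

theorem X0 (x y z : Fin n) {k : ℕ} (hk : k < 3) : s.X x y z k = s.co x k := by
  unfold X; rw [if_pos hk]

theorem X1 (x y z : Fin n) {k : ℕ} (hk : k < 3) : s.X x y z (3 + k) = s.co y k := by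
  unfold X
  rw [if_neg (by omega), if_pos (by omega), show 3 + k - 3 = k by omega]

theorem X2 (x y z : Fin n) {k : ℕ} (hk : k < 3) : s.X x y z (6 + k) = s.co z k := by
  unfold X
  rw [if_neg (by omega), if_neg (by omega), if_pos (by omega), show 6 + k - 6 = k by omega]

theorem X9 (x y z : Fin n) : s.X x y z 9 = s.T := by
  unfold X
  rw [if_neg (by omega), if_neg (by omega), if_neg (by omega)]

theorem bas (x y z : Fin n) : Bas (tt (s.ty x) (s.ty y) (s.ty z)) (s.X x y z) := by
  constructor
  · rw [X9]; exact s.T_pos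
  · intro k hk
    unfold X
    split_ifs with h1 h2
    · exact s.nn x k h1
    · exact s.nn y _ (by omega)
    · exact s.nn z _ (by omega)
  · intro l hl c hc h
    interval_cases l
    · rw [show 3 * 0 + c = c by omega, X0 s x y z hc]; exact s.ab x c hc h
    · rw [show 3 * 1 + c = 3 + c by omega, X1 s x y z hc]; exact s.ab y c hc h
    · rw [show 3 * 2 + c = 6 + c by omega, X2 s x y z hc]; exact s.ab z c hc h
  · intro l hl
    rw [X9]
    interval_cases l
    · exact s.sm x
    · exact s.sm y
    · exact s.sm z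

theorem pf0 (x y z : Fin n) {i : ℕ} (hi : i < 9) : pf (s.X x y z) (0 + i) = s.val x y i := by
  have h := pf_pair (s.X x y z) (P := 0) (by omega) hi
  rw [show 9 * 0 + i = 0 + i by omega, show 3 * (0 / 2) + i / 3 = i / 3 by omega,
    show 3 * ((0 + 3) / 2) + i % 3 = 3 + i % 3 by omega, X0 s x y z (by omega : i / 3 < 3),
    X1 s x y z (by omega : i % 3 < 3), X9] at h
  rw [h]; rfl

theorem pf1 (x y z : Fin n) {i : ℕ} (hi : i < 9) : pf (s.X x y z) (9 + i) = s.val x z i := by
  have h := pf_pair (s.X x y z) (P := 1) (by omega) hi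
  rw [show 9 * 1 + i = 9 + i by omega, show 3 * (1 / 2) + i / 3 = i / 3 by omega,
    show 3 * ((1 + 3) / 2) + i % 3 = 6 + i % 3 by omega, X0 s x y z (by omega : i / 3 < 3),
    X2 s x y z (by omega : i % 3 < 3), X9] at h
  rw [h]; rfl

theorem pf2 (x y z : Fin n) {i : ℕ} (hi : i < 9) : pf (s.X x y z) (18 + i) = s.val y z i := by
  have h := pf_pair (s.X x y z) (P := 2) (by omega) hi
  rw [show 9 * 2 + i = 18 + i by omega, show 3 * (2 / 2) + i / 3 = 3 + i / 3 by omega,
    show 3 * ((2 + 3) / 2) + i % 3 = 6 + i % 3 by omega, X1 s x y z (by omega : i / 3 < 3),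
    X2 s x y z (by omega : i % 3 < 3), X9] at h
  rw [h]; rfl

end Sys

end Pool.Agent.BSub.KK
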